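import Mathlib

/-!
Higher-dimensional Hermite-Hadamard constants: the flat cone over a simplex.
Everything happens in `H m = WithLp 2 (E m × ℝ)`.
-/

open MeasureTheory Set
open scoped ENNReal NNReal

namespace Pool.Agent.H867R2.HH

noncomputable section

/-- Euclidean `m`-space -/
abbrev E (m : ℕ) := EuclideanSpace ℝ (Fin m)

/-- `E m × ℝ` with the Euclidean norm -/
abbrev H (m : ℕ) := WithLp 2 (E m × ℝ)

variable {m : ℕ}

/-- sum of the coordinates -/
def S (x : E m) : ℝ := ∑ i, x i

theorem continuous_S : Continuous (S : E m → ℝ) := by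
  unfold S; fun_prop

theorem S_sub (x y : E m) : S x - S y = S (x - y) := by
  simp [S, Finset.sum_sub_distrib]

theorem abs_S_le (x : E m) : |S x| ≤ Real.sqrt m * ‖x‖ := by
  rw [EuclideanSpace.norm_eq, ← Real.sqrt_mul (Nat.cast_nonneg m)]
  apply Real.abs_le_sqrt
  have := Finset.sum_mul_sq_le_sq_mul_sq Finset.univ (fun _ : Fin m => (1 : ℝ)) (fun i => x i)
  simpa [S] using this

/-- open simplex -/
def Do (m : ℕ) : Set (E m) := {x | (∀ i, 0 < x i) ∧ S x < 1}

theorem isOpen_Do : IsOpen (Do m) := by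
  have : Do m = (⋂ i, {x : E m | 0 < x i}) ∩ {x | S x < 1} := by
    ext x; simp [Do]
  rw [this]
  refine IsOpen.inter ?_ (isOpen_lt continuous_S continuous_const)
  exact isOpen_iInter_of_finite fun i => isOpen_lt continuous_const (by fun_prop)

/-- the unit cube -/
def Bx (m : ℕ) : Set (E m) := {x | ∀ i, 0 ≤ x i ∧ x i ≤ 1}

theorem volume_Bx : volume (Bx m) = 1 := by
  have h : (@WithLp.ofLp 2 (Fin m → ℝ)) ⁻¹' (Icc (fun _ => 0) (fun _ => 1)) = Bx m := by
    ext x
    simp [Bx, Pi.le_def, forall_and]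
  rw [← h, (PiLp.volume_preserving_ofLp (Fin m)).measure_preimage
    measurableSet_Icc.nullMeasurableSet, Real.volume_Icc_pi]
  simp

theorem Do_subset_Bx : Do m ⊆ Bx m := by
  rintro x ⟨h0, h1⟩ i
  refine ⟨(h0 i).le, ?_⟩
  have : x i ≤ S x := Finset.single_le_sum (f := fun i => x i) (fun j _ => (h0 j).le)
    (Finset.mem_univ i)
  linarith

theorem volume_Do_ne_top : volume (Do m) ≠ ⊤ :=
  ((measure_mono Do_subset_Bx).trans_lt (by rw [volume_Bx]; exact ENNReal.one_lt_top)).ne

/-! ### Lipschitz images -/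

theorem lip_image {X Y : Type*} [MetricSpace X] [MeasurableSpace X] [BorelSpace X]
    [MetricSpace Y] [MeasurableSpace Y] [BorelSpace Y] {g : X → Y} {K : ℝ≥0} {s : Set X}
    (hg : LipschitzOnWith K g s) (d : ℕ) :
    (μHE[d] : Measure Y) (g '' s) ≤ (K : ℝ≥0∞) ^ d * μHE[d] s := by
  simp only [Measure.euclideanHausdorffMeasure_def, Measure.smul_apply, ENNReal.smul_def,
    smul_eq_mul]
  rw [mul_left_comm]
  gcongr
  have := hg.hausdorffMeasure_image_le (d := d) (by positivity)
  simpa using this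

theorem restrict_le {Y : Type*} [MetricSpace Y] [MeasurableSpace Y] [BorelSpace Y]
    {g : E m → Y} {K : ℝ≥0} (hg : LipschitzWith K g) (A : Set (E m)) :
    (μHE[m] : Measure Y).restrict (g '' A) ≤
      ((K : ℝ≥0∞) ^ m) • ((volume.restrict A).map g) := by
  rw [Measure.le_iff]
  intro B hB
  rw [Measure.restrict_apply hB, Measure.smul_apply, Measure.map_apply hg.continuous.measurable hB,
    Measure.restrict_apply (hg.continuous.measurable hB), smul_eq_mul,
    ← EuclideanSpace.euclideanHausdorffMeasure_eq_volume m]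
  refine le_trans (measure_mono ?_) (lip_image hg.lipschitzOnWith m)
  rintro _ ⟨hy, x, hx, rfl⟩
  exact ⟨x, ⟨hy, hx⟩, rfl⟩

/-! ### the graph maps -/

/-- the two faces -/
def gr (a : ℝ) (x : E m) : H m := WithLp.toLp 2 (x, a * (1 - S x))

theorem lip_gr (a : ℝ) : LipschitzWith (Real.toNNReal (Real.sqrt (1 + m * a ^ 2)))
    (gr (m := m) a) := by
  refine LipschitzWith.of_dist_le_mul fun x y => ?_
  rw [Real.coe_toNNReal _ (Real.sqrt_nonneg _), dist_eq_norm, dist_eq_norm,
    WithLp.prod_norm_eq_of_L2]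
  have h1 : (gr a x - gr a y).snd = -(a * S (x - y)) := by
    simp only [gr, ← WithLp.toLp_sub, Prod.mk_sub_mk, WithLp.toLp_snd, ← S_sub]
    ring
  have h2 : (gr a x - gr a y).fst = x - y := by
    simp [gr]
  rw [h1, h2]
  have h3 : ‖-(a * S (x - y))‖ ^ 2 ≤ (m * a ^ 2) * ‖x - y‖ ^ 2 := by
    rw [norm_neg, norm_mul, Real.norm_eq_abs, Real.norm_eq_abs, mul_pow, sq_abs, sq_abs]
    have h4 := abs_S_le (x - y)
    have h5 : S (x - y) ^ 2 ≤ m * ‖x - y‖ ^ 2 := by
      rw [← sq_abs]
      calc |S (x - y)| ^ 2 ≤ (Real.sqrt m * ‖x - y‖) ^ 2 := by gcongr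
        _ = _ := by rw [mul_pow, Real.sq_sqrt (Nat.cast_nonneg m)]
    nlinarith [sq_nonneg a]
  calc Real.sqrt (‖x - y‖ ^ 2 + ‖-(a * S (x - y))‖ ^ 2)
      ≤ Real.sqrt ((1 + m * a ^ 2) * ‖x - y‖ ^ 2) := by
        apply Real.sqrt_le_sqrt
        linarith
    _ = _ := by
        rw [Real.sqrt_mul (by positivity), Real.sqrt_sq (norm_nonneg _)]

/-- open faces -/
def To (m : ℕ) (a : ℝ) : Set (H m) := gr a '' Do m

theorem le_To (a : ℝ) : volume (Do m) ≤ (μHE[m] : Measure (H m)) (To m a) := by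
  have h1 : LipschitzWith 1 (fun z : H m => z.fst) := by
    refine LipschitzWith.of_dist_le_mul fun x y => ?_
    rw [dist_eq_norm, dist_eq_norm, NNReal.coe_one, one_mul, WithLp.prod_norm_eq_of_L2]
    apply Real.le_sqrt_of_sq_le
    rw [WithLp.sub_fst]
    nlinarith [sq_nonneg ‖(x - y).snd‖]
  have h2 := lip_image (h1.lipschitzOnWith (s := To m a)) m
  have h3 : (fun z : H m => z.fst) '' (To m a) = Do m := by
    rw [To, image_image]
    simp [gr]
  rw [h3, EuclideanSpace.euclideanHausdorffMeasure_eq_volume] at h2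
  simpa using h2

/-! ### the sides -/

/-- side facets -/
def Sd (m : ℕ) (i : Fin m) (ε : ℝ) : Set (H m) :=
  {z | z.fst i = 0 ∧ (∀ j, 0 ≤ z.fst j ∧ z.fst j ≤ 1) ∧ |z.snd| ≤ ε}

/-- isometric parametrisation of the hyperplane containing the side -/
def kk (i : Fin m) (y : E m) : H m :=
  WithLp.toLp 2 (WithLp.toLp 2 (fun j => if j = i then 0 else y j), y i)

theorem isometry_kk (i : Fin m) : Isometry (kk i) := by
  refine Isometry.of_dist_eq fun x y => ?_
  rw [dist_eq_norm, dist_eq_norm, WithLp.prod_norm_eq_of_L2, EuclideanSpace.norm_eq (x - y)]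
  congr 1
  rw [EuclideanSpace.norm_sq_eq, ← Finset.add_sum_erase _ _ (Finset.mem_univ i),
    ← Finset.add_sum_erase _ _ (Finset.mem_univ i)]
  have h1 : ∑ j ∈ Finset.univ.erase i, ‖(kk i x - kk i y).fst j‖ ^ 2 =
      ∑ j ∈ Finset.univ.erase i, ‖(x - y) j‖ ^ 2 := by
    refine Finset.sum_congr rfl fun j hj => ?_
    have : j ≠ i := (Finset.mem_erase.1 hj).1
    simp [kk, this]
  rw [h1]
  simp [kk]

theorem Sd_le (i : Fin m) (ε : ℝ) (hε : 0 ≤ ε) :
    (μHE[m] : Measure (H m)) (Sd m i ε) ≤ ENNReal.ofReal (2 * ε) := by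
  have _ := hε
  set A : Set (E m) := (@WithLp.ofLp 2 (Fin m → ℝ)) ⁻¹'
    (Icc (fun j => if j = i then -ε else 0) (fun j => if j = i then ε else 1)) with hA
  have h1 : Sd m i ε ⊆ kk i '' A := by
    rintro z ⟨h0, h1, h2⟩
    refine ⟨WithLp.toLp 2 (fun j => if j = i then z.snd else z.fst j), ?_, ?_⟩
    · rw [hA, mem_preimage, mem_Icc]
      rw [abs_le] at h2
      constructor
      · intro j
        by_cases hj : j = i
        · simp [hj, h2.1]
        · simp [hj, (h1 j).1]
      · intro j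
        by_cases hj : j = i
        · simp [hj, h2.2]
        · simp [hj, (h1 j).2]
    · apply WithLp.ofLp_injective 2
      refine Prod.ext ?_ ?_
      · ext j
        by_cases hj : j = i
        · subst hj
          simp [kk]
          exact h0.symm
        · simp [kk, hj]
      · simp [kk]
  refine (measure_mono h1).trans ?_
  rw [(isometry_kk i).euclideanHausdorffMeasure_image,
    EuclideanSpace.euclideanHausdorffMeasure_eq_volume, hA,
    (PiLp.volume_preserving_ofLp (Fin m)).measure_preimage measurableSet_Icc.nullMeasurableSet,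
    Real.volume_Icc_pi, ← Finset.mul_prod_erase _ _ (Finset.mem_univ i)]
  have h2 : ∏ j ∈ Finset.univ.erase i, ENNReal.ofReal ((if j = i then ε else 1) -
      (if j = i then -ε else 0)) = 1 := by
    refine Finset.prod_eq_one fun j hj => ?_
    have : j ≠ i := (Finset.mem_erase.1 hj).1
    simp [this]
  rw [h2, mul_one]
  simp only [if_true]
  exact le_of_eq (by congr 1; ring)


/-! ### the domain -/

/-- the flat cone -/
def Om (m : ℕ) (ε : ℝ) : Set (H m) := {z | z.fst ∈ Do m ∧ |z.snd| < ε * (1 - S z.fst)}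

/-- the convex function, concentrated at the vertex -/
def ff (δ : ℝ) (x : E m) : ℝ := max 0 (1 - S x / δ)

theorem continuous_fst : Continuous (fun z : H m => z.fst) :=
  _root_.continuous_fst.comp (WithLp.prod_continuous_ofLp 2 _ _)

theorem continuous_snd : Continuous (fun z : H m => z.snd) :=
  _root_.continuous_snd.comp (WithLp.prod_continuous_ofLp 2 _ _)

theorem continuous_ff (δ : ℝ) : Continuous (ff (m := m) δ) :=
  continuous_const.max (continuous_const.sub (continuous_S.div_const δ))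

theorem isOpen_Om (ε : ℝ) : IsOpen (Om m ε) := by
  refine (isOpen_Do.preimage continuous_fst).inter ?_
  exact isOpen_lt continuous_snd.abs
    (continuous_const.mul (continuous_const.sub (continuous_S.comp continuous_fst)))

theorem S_add (x y : E m) : S (x + y) = S x + S y := by
  simp [S, Finset.sum_add_distrib]

theorem S_smul (a : ℝ) (x : E m) : S (a • x) = a * S x := by
  simp [S, Finset.mul_sum]

theorem convex_Do : Convex ℝ (Do m) := by
  rintro x ⟨hx0, hx1⟩ y ⟨hy0, hy1⟩ a b ha hb hab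
  constructor
  · intro i
    have h1 := hx0 i
    have h2 := hy0 i
    rcases ha.eq_or_lt with h | h
    · have : b = 1 := by linarith
      simp [← h, this, h2]
    · have : 0 < a * x i := mul_pos h h1
      have : 0 ≤ b * y i := mul_nonneg hb h2.le
      simp
      linarith
  · rw [S_add, S_smul, S_smul]
    rcases ha.eq_or_lt with h | h
    · have : b = 1 := by linarith
      simp [← h, this, hy1]
    · nlinarith [mul_pos h (sub_pos.2 hx1), mul_nonneg hb (sub_pos.2 hy1).le]

theorem convex_Om (ε : ℝ) : Convex ℝ (Om m ε) := by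
  rintro x ⟨hx0, hx1⟩ y ⟨hy0, hy1⟩ a b ha hb hab
  refine ⟨?_, ?_⟩
  · rw [WithLp.add_fst, WithLp.smul_fst, WithLp.smul_fst]
    exact convex_Do hx0 hy0 ha hb hab
  · rw [WithLp.add_fst, WithLp.smul_fst, WithLp.smul_fst, WithLp.add_snd, WithLp.smul_snd,
      WithLp.smul_snd, S_add, S_smul, S_smul, smul_eq_mul, smul_eq_mul]
    have h1 : |a * x.snd + b * y.snd| ≤ a * |x.snd| + b * |y.snd| := by
      refine (abs_add_le _ _).trans (le_of_eq ?_)
      rw [abs_mul, abs_mul, abs_of_nonneg ha, abs_of_nonneg hb]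
    have h2 : ε * (1 - (a * S x.fst + b * S y.fst)) =
        a * (ε * (1 - S x.fst)) + b * (ε * (1 - S y.fst)) := by
      have : b = 1 - a := by linarith
      subst this
      ring
    rw [h2]
    refine h1.trans_lt ?_
    rcases ha.eq_or_lt with h | h
    · have : b = 1 := by linarith
      simp [← h, this, hy1]
    · have h3 := mul_pos h (sub_pos.2 hx1)
      have h4 := mul_nonneg hb (sub_pos.2 hy1).le
      nlinarith

theorem mem_Do_small : (WithLp.toLp 2 (fun _ => (1 : ℝ) / (2 * m + 2)) : E m) ∈ Do m := by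
  constructor
  · intro i
    simp
    positivity
  · simp only [S, Finset.sum_const, Finset.card_univ, Fintype.card_fin, nsmul_eq_mul]
    rw [mul_one_div, div_lt_one (by positivity)]
    linarith [Nat.cast_nonneg (α := ℝ) m]

theorem nonempty_Om (ε : ℝ) (hε : 0 < ε) : (Om m ε).Nonempty := by
  refine ⟨WithLp.toLp 2 (WithLp.toLp 2 (fun _ => (1 : ℝ) / (2 * m + 2)), 0), mem_Do_small, ?_⟩
  have := (mem_Do_small (m := m)).2
  simp only [WithLp.toLp_snd, WithLp.toLp_fst, abs_zero]
  exact mul_pos hε (by linarith)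

/-- the closed hull used for the frontier -/
theorem closure_Om (ε : ℝ) (z : H m) (hz : z ∈ closure (Om m ε)) :
    (∀ i, 0 ≤ z.fst i) ∧ S z.fst ≤ 1 ∧ |z.snd| ≤ ε * (1 - S z.fst) := by
  have hc : IsClosed {z : H m | (∀ i, 0 ≤ z.fst i) ∧ S z.fst ≤ 1 ∧
      |z.snd| ≤ ε * (1 - S z.fst)} := by
    have : {z : H m | (∀ i, 0 ≤ z.fst i) ∧ S z.fst ≤ 1 ∧ |z.snd| ≤ ε * (1 - S z.fst)} =
      (⋂ i, {z : H m | 0 ≤ z.fst i}) ∩ ({z | S z.fst ≤ 1} ∩ {z | |z.snd| ≤ ε * (1 - S z.fst)}) := by
      ext z; simp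
    rw [this]
    refine IsClosed.inter (isClosed_iInter fun i => ?_) (IsClosed.inter ?_ ?_)
    · refine isClosed_le continuous_const ?_
      have h1 : Continuous (fun x : E m => x i) := by fun_prop
      exact h1.comp continuous_fst
    · exact isClosed_le (continuous_S.comp continuous_fst) continuous_const
    · exact isClosed_le continuous_snd.abs
        (continuous_const.mul (continuous_const.sub (continuous_S.comp continuous_fst)))
  refine closure_minimal ?_ hc hz
  rintro z ⟨⟨h0, h1⟩, h2⟩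
  exact ⟨fun i => (h0 i).le, h1.le, h2.le⟩

theorem frontier_Om (ε : ℝ) (hε : 0 ≤ ε) (z : H m) (hz : z ∈ frontier (Om m ε)) :
    z ∈ To m ε ∪ To m (-ε) ∪ (⋃ i, Sd m i ε) ∨ ((∀ i, 0 ≤ z.fst i) ∧ S z.fst = 1 ∧ z.snd = 0) := by
  have hcl := closure_Om ε z (frontier_subset_closure hz)
  obtain ⟨h0, h1, h2⟩ := hcl
  have hn : z ∉ Om m ε := by
    rw [(isOpen_Om ε).frontier_eq] at hz
    exact hz.2
  by_cases hi : ∃ i, z.fst i = 0
  · obtain ⟨i, hi⟩ := hi
    left; right
    refine mem_iUnion.2 ⟨i, hi, fun j => ⟨h0 j, ?_⟩, h2.trans ?_⟩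
    · have : z.fst j ≤ S z.fst := Finset.single_le_sum (f := fun i => z.fst i)
        (fun j _ => h0 j) (Finset.mem_univ j)
      linarith
    · have : 0 ≤ S z.fst := Finset.sum_nonneg fun j _ => h0 j
      nlinarith
  · push Not at hi
    have h0' : ∀ i, 0 < z.fst i := fun i => lt_of_le_of_ne (h0 i) (hi i).symm
    rcases h1.eq_or_lt with h1 | h1
    · right
      refine ⟨h0, h1, ?_⟩
      rw [h1, sub_self, mul_zero] at h2
      exact abs_eq_zero.1 (le_antisymm h2 (abs_nonneg _))
    · have hD : z.fst ∈ Do m := ⟨h0', h1⟩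
      have h3 : |z.snd| = ε * (1 - S z.fst) := by
        by_contra hne
        exact hn ⟨hD, lt_of_le_of_ne h2 hne⟩
      left; left
      rcases abs_cases z.snd with h | h
      · left
        refine ⟨z.fst, hD, ?_⟩
        apply WithLp.ofLp_injective 2
        refine Prod.ext (by simp [gr]) ?_
        simp only [gr, WithLp.ofLp_toLp]
        rw [← h3, h.1]
        rfl
      · right
        refine ⟨z.fst, hD, ?_⟩
        apply WithLp.ofLp_injective 2
        refine Prod.ext (by simp [gr]) ?_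
        simp only [gr, WithLp.ofLp_toLp]
        rw [neg_mul, ← h3, h.1, neg_neg]
        rfl

theorem To_subset (ε : ℝ) (hε : 0 < ε) (a : ℝ) (ha : a = ε ∨ a = -ε) :
    To m a ⊆ frontier (Om m ε) := by
  rintro _ ⟨x, hx, rfl⟩
  have hpos : 0 < ε * (1 - S x) := mul_pos hε (by linarith [hx.2])
  have habs : |a * (1 - S x)| = ε * (1 - S x) := by
    rcases ha with rfl | rfl
    · exact abs_of_pos hpos
    · rw [neg_mul, abs_neg, abs_of_pos hpos]
  rw [(isOpen_Om ε).frontier_eq]
  refine ⟨?_, ?_⟩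
  · -- approximated by (x, s a (1 - S x)), s -> 1-
    have hcont : Continuous (fun s : ℝ => (WithLp.toLp 2 (x, s * (a * (1 - S x))) : H m)) := by
      fun_prop
    have h1 : gr a x = (fun s : ℝ => (WithLp.toLp 2 (x, s * (a * (1 - S x))) : H m)) 1 := by
      simp [gr]
    rw [h1]
    have h2 : (1 : ℝ) ∈ closure (Ioo (0 : ℝ) 1) := by
      rw [closure_Ioo (by norm_num)]; simp
    refine map_mem_closure (f := fun s : ℝ => (WithLp.toLp 2 (x, s * (a * (1 - S x))) : H m))
      hcont h2 ?_
    rintro s ⟨hs0, hs1⟩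
    refine ⟨hx, ?_⟩
    show |s * (a * (1 - S x))| < ε * (1 - S x)
    rw [abs_mul, habs, abs_of_pos hs0]
    nlinarith
  · rintro ⟨-, h⟩
    have : |a * (1 - S x)| < ε * (1 - S x) := h
    rw [habs] at this
    exact lt_irrefl _ this

end

end Pool.Agent.H867R2.HH
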