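import Pool.Agent.H867R2.HH1

/-!
Higher-dimensional Hermite-Hadamard constants: measure estimates for the flat cone.
-/

open MeasureTheory Set
open scoped ENNReal NNReal Pointwise

namespace Pool.Agent.H867R2.HH

noncomputable section

variable {m : ℕ}

/-- integrals of functions of the base point over a symmetric region between graphs -/
theorem lintegral_region (A : Set (E m)) (hA : MeasurableSet A) (h : E m → ℝ) (hh : Measurable h)
    (F : E m → ℝ≥0∞) (hF : Measurable F) :
    ∫⁻ z in {z : H m | z.fst ∈ A ∧ |z.snd| < h z.fst}, F z.fst =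
      ∫⁻ x in A, F x * ENNReal.ofReal (2 * h x) := by
  have hmp : MeasurePreserving (@WithLp.ofLp 2 (E m × ℝ)) := WithLp.volume_preserving_ofLp (E m) ℝ
  set R : Set (E m × ℝ) := {p | p.1 ∈ A ∧ |p.2| < h p.1} with hR
  have hRm : MeasurableSet R := by
    refine (measurable_fst hA).inter ?_
    exact measurableSet_lt (measurable_snd.abs) (hh.comp measurable_fst)
  have h1 : {z : H m | z.fst ∈ A ∧ |z.snd| < h z.fst} = (@WithLp.ofLp 2 (E m × ℝ)) ⁻¹' R := rfl
  rw [h1]
  have h2 : ∫⁻ z in (@WithLp.ofLp 2 (E m × ℝ)) ⁻¹' R, F z.fst = ∫⁻ p in R, F p.1 := by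
    exact hmp.setLIntegral_comp_preimage hRm (f := fun p : E m × ℝ => F p.1)
      (hF.comp measurable_fst)
  rw [h2, ← lintegral_indicator hRm, Measure.volume_eq_prod, lintegral_prod _
    (Measurable.indicator (f := fun p : E m × ℝ => F p.1)
      (hF.comp measurable_fst) hRm).aemeasurable, ← lintegral_indicator hA]
  refine lintegral_congr fun x => ?_
  by_cases hx : x ∈ A
  · rw [indicator_of_mem hx]
    have h3 : ∀ t, R.indicator (fun p : E m × ℝ => F p.1) (x, t) =
        (Ioo (-h x) (h x)).indicator (fun _ => F x) t := by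
      intro t
      by_cases ht : |t| < h x
      · rw [indicator_of_mem (show (x, t) ∈ R from ⟨hx, ht⟩),
          indicator_of_mem (show t ∈ Ioo (-h x) (h x) from abs_lt.1 ht)]
      · rw [indicator_of_notMem (fun hm : (x, t) ∈ R => ht hm.2),
          indicator_of_notMem (fun hm : t ∈ Ioo (-h x) (h x) => ht (abs_lt.2 hm))]
    simp_rw [h3]
    rw [lintegral_indicator measurableSet_Ioo, lintegral_const, Measure.restrict_apply_univ,
      Real.volume_Ioo]
    congr 2
    ring
  · rw [indicator_of_notMem hx]
    have h3 : ∀ t, R.indicator (fun p : E m × ℝ => F p.1) (x, t) = 0 := fun t =>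
      indicator_of_notMem (fun hm : (x, t) ∈ R => hx hm.1) _
    simp_rw [h3]
    simp

theorem measurableSet_Do : MeasurableSet (Do m) := isOpen_Do.measurableSet

theorem measurable_S : Measurable (S : E m → ℝ) := continuous_S.measurable

/-- scaling of the simplex -/
theorem volume_Do_scale (s : ℝ) (hs : 0 ≤ s) (hs1 : s ≤ 1) :
    volume {x : E m | (∀ i, 0 < x i) ∧ S x < s} = ENNReal.ofReal (s ^ m) * volume (Do m) ∨
      (s = 0 ∧ m = 0) := by
  rcases hs.eq_or_lt with h | h
  · rcases Nat.eq_zero_or_pos m with hm | hm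
    · right; exact ⟨h.symm, hm⟩
    · left
      subst h
      have : {x : E m | (∀ i, 0 < x i) ∧ S x < 0} = ∅ := by
        ext x
        simp only [mem_ofPred_eq, mem_empty_iff_false, iff_false, not_and, not_lt]
        intro h0
        exact Finset.sum_nonneg fun j _ => (h0 j).le
      rw [this, zero_pow hm.ne']
      simp
  · left
    have h1 : {x : E m | (∀ i, 0 < x i) ∧ S x < s} = s • Do m := by
      ext x
      rw [mem_smul_set_iff_inv_smul_mem₀ h.ne']
      simp only [Do, mem_ofPred_eq, S_smul, WithLp.ofLp_smul, Pi.smul_apply, smul_eq_mul]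
      refine and_congr (forall_congr' fun i => ?_) ?_
      · exact (mul_pos_iff_of_pos_left (inv_pos.2 h)).symm
      · rw [inv_mul_lt_iff₀ h, mul_one]
    rw [h1, Measure.addHaar_smul]
    congr 2
    rw [finrank_euclideanSpace_fin, abs_of_pos (by positivity)]

/-- mean of `1 - S` over the simplex: `1/(m+1)` -/
theorem lintegral_one_sub_S :
    ∫⁻ x in Do m, ENNReal.ofReal (1 - S x) = volume (Do m) / (m + 1) := by
  have h1 : ∫⁻ x in Do m, ENNReal.ofReal (1 - S x) =
      ∫⁻ s in Ioi (0 : ℝ), volume.restrict (Do m) {x | s < 1 - S x} := by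
    refine lintegral_eq_lintegral_meas_lt _ ?_ ?_
    · refine (ae_restrict_iff' measurableSet_Do).2 (Filter.Eventually.of_forall fun x hx => ?_)
      have := hx.2
      show (0 : ℝ) ≤ 1 - S x
      linarith
    · exact (measurable_const.sub measurable_S).aemeasurable
  rw [h1]
  have h2 : ∀ s ∈ Ioi (0 : ℝ), volume.restrict (Do m) {x | s < 1 - S x} =
      (Ioo (0 : ℝ) 1).indicator (fun s => ENNReal.ofReal ((1 - s) ^ m) * volume (Do m)) s := by
    intro s hs
    have hms : MeasurableSet {x : E m | s < 1 - S x} :=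
      measurableSet_lt measurable_const (measurable_const.sub measurable_S)
    rw [Measure.restrict_apply hms]
    have h3 : {x : E m | s < 1 - S x} ∩ Do m = {x : E m | (∀ i, 0 < x i) ∧ S x < 1 - s} := by
      ext x
      simp only [Do, mem_inter_iff, mem_ofPred_eq]
      constructor
      · rintro ⟨h1, h2, h3⟩
        exact ⟨h2, by linarith⟩
      · rintro ⟨h1, h2⟩
        have : (0 : ℝ) < s := hs
        exact ⟨by linarith, h1, by linarith⟩
    rw [h3]
    by_cases hs1 : s < 1
    · rw [indicator_of_mem (show s ∈ Ioo (0 : ℝ) 1 from ⟨hs, hs1⟩)]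
      rcases volume_Do_scale (m := m) (1 - s) (by linarith) (by linarith [show (0 : ℝ) < s from hs])
        with h | h
      · exact h
      · linarith [h.1]
    · rw [indicator_of_notMem (fun hm : s ∈ Ioo (0 : ℝ) 1 => hs1 hm.2)]
      have : {x : E m | (∀ i, 0 < x i) ∧ S x < 1 - s} = ∅ := by
        ext x
        simp only [mem_ofPred_eq, mem_empty_iff_false, iff_false, not_and, not_lt]
        intro h0
        have : 0 ≤ S x := Finset.sum_nonneg fun j _ => (h0 j).le
        linarith
      rw [this, measure_empty]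
  rw [setLIntegral_congr_fun measurableSet_Ioi h2, setLIntegral_indicator measurableSet_Ioo]
  have h4 : Ioo (0 : ℝ) 1 ∩ Ioi 0 = Ioo 0 1 := by
    ext x; simp; intro h _; exact h
  rw [h4, lintegral_mul_const _ (by fun_prop)]
  have h5 : ∫⁻ s in Ioo (0 : ℝ) 1, ENNReal.ofReal ((1 - s) ^ m) = ENNReal.ofReal (1 / (m + 1)) := by
    rw [← ofReal_integral_eq_lintegral_ofReal]
    · congr 1
      rw [← integral_Ioc_eq_integral_Ioo, ← intervalIntegral.integral_of_le zero_le_one]
      have := intervalIntegral.integral_comp_sub_left (fun s : ℝ => s ^ m) (a := 0) (b := 1) 1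
      rw [this]
      simp
    · refine Continuous.integrableOn_Ioc (by fun_prop) |>.mono_set Ioo_subset_Ioc_self
    · refine (ae_restrict_iff' measurableSet_Ioo).2 (Filter.Eventually.of_forall fun x hx => ?_)
      have := hx.2
      show (0 : ℝ) ≤ (1 - x) ^ m
      have : (0:ℝ) ≤ 1 - x := by linarith
      positivity
  rw [h5, mul_comm, ENNReal.div_eq_inv_mul, mul_comm]
  congr 1
  rw [one_div, ENNReal.ofReal_inv_of_pos (by positivity)]
  congr 1
  rw [ENNReal.ofReal_add (by positivity) zero_le_one]
  simp

end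

end Pool.Agent.H867R2.HH
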