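import Pool.Agent.H867R2.HH2

/-!
Higher-dimensional Hermite-Hadamard constants: the estimate in `E m × ℝ`.
-/

open MeasureTheory Set
open scoped ENNReal NNReal Pointwise

namespace Pool.Agent.H867R2.HH

noncomputable section

variable {m : ℕ}

theorem ff_nonneg (δ : ℝ) (x : E m) : 0 ≤ ff δ x := le_max_left _ _

theorem ff_le_one (δ : ℝ) (hδ : 0 < δ) (x : E m) (hx : 0 ≤ S x) : ff δ x ≤ 1 := by
  refine max_le zero_le_one ?_
  have : 0 ≤ S x / δ := by positivity
  linarith

theorem measurable_ff (δ : ℝ) : Measurable (ff (m := m) δ) := (continuous_ff δ).measurable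

/-- mass of `f` over the simplex -/
def J (m : ℕ) (δ : ℝ) : ℝ≥0∞ := ∫⁻ x in Do m, ENNReal.ofReal (ff δ x)

theorem J_le (δ : ℝ) (hδ : 0 < δ) : J m δ ≤ volume (Do m) := by
  calc J m δ ≤ ∫⁻ _ in Do m, 1 := by
        refine setLIntegral_mono' measurableSet_Do fun x hx => ?_
        rw [← ENNReal.ofReal_one]
        exact ENNReal.ofReal_le_ofReal (ff_le_one δ hδ x (Finset.sum_nonneg fun j _ => (hx.1 j).le))
    _ = volume (Do m) := by simp

theorem J_ne_top (δ : ℝ) (hδ : 0 < δ) : J m δ ≠ ⊤ :=
  ((J_le δ hδ).trans_lt (lt_top_iff_ne_top.2 volume_Do_ne_top)).ne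

theorem J_pos (δ : ℝ) (hδ : 0 < δ) : 0 < J m δ := by
  have h1 : IsOpen ({x : E m | S x < δ} ∩ Do m) :=
    (isOpen_lt continuous_S continuous_const).inter isOpen_Do
  have h2 : ({x : E m | S x < δ} ∩ Do m).Nonempty := by
    set r : ℝ := min 1 δ with hr
    have hr0 : 0 < r := lt_min one_pos hδ
    have hr1 : r ≤ 1 := min_le_left _ _
    refine ⟨r • WithLp.toLp 2 (fun _ => (1 : ℝ) / (2 * m + 2)), ?_, ?_, ?_⟩
    · show S _ < δ
      rw [S_smul]
      have := (mem_Do_small (m := m)).2
      have h3 : 0 ≤ S (WithLp.toLp 2 (fun _ => (1 : ℝ) / (2 * m + 2)) : E m) :=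
        Finset.sum_nonneg fun j _ => ((mem_Do_small (m := m)).1 j).le
      have : r ≤ δ := min_le_right _ _
      nlinarith
    · intro i
      have := (mem_Do_small (m := m)).1 i
      simp only [WithLp.ofLp_smul, Pi.smul_apply, smul_eq_mul]
      exact mul_pos hr0 this
    · rw [S_smul]
      have := (mem_Do_small (m := m)).2
      have h3 : 0 ≤ S (WithLp.toLp 2 (fun _ => (1 : ℝ) / (2 * m + 2)) : E m) :=
        Finset.sum_nonneg fun j _ => ((mem_Do_small (m := m)).1 j).le
      nlinarith
  rw [J, lintegral_pos_iff_support (measurable_ff δ).ennreal_ofReal]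
  refine (h1.measure_pos volume h2).trans_le ?_
  rw [Measure.restrict_apply' measurableSet_Do]
  refine measure_mono fun x hx => ⟨?_, hx.2⟩
  rw [Function.mem_support]
  have h4 : 0 < ff δ x := by
    refine lt_max_of_lt_right ?_
    have : S x / δ < 1 := (div_lt_one hδ).2 hx.1
    linarith
  exact (ENNReal.ofReal_pos.2 h4).ne'

theorem volume_Do_pos : 0 < volume (Do m) := (J_pos 1 one_pos).trans_le (J_le 1 one_pos)

theorem volume_Om (ε : ℝ) (hε : 0 < ε) :
    volume (Om m ε) = ENNReal.ofReal (2 * ε) * (volume (Do m) / (m + 1)) := by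
  have h := lintegral_region (Do m) measurableSet_Do (fun x => ε * (1 - S x))
    (measurable_const.mul (measurable_const.sub measurable_S)) (fun _ => 1) measurable_const
  have h1 : {z : H m | z.fst ∈ Do m ∧ |z.snd| < ε * (1 - S z.fst)} = Om m ε := rfl
  rw [h1, lintegral_one, Measure.restrict_apply_univ] at h
  have hms : Measurable (fun x : E m => ENNReal.ofReal (1 - S x)) :=
    (measurable_const.sub measurable_S).ennreal_ofReal
  rw [h, ← lintegral_one_sub_S, ← lintegral_const_mul _ hms]
  refine lintegral_congr fun x => ?_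
  rw [one_mul, ← ENNReal.ofReal_mul (by positivity)]
  congr 1
  ring

theorem lintegral_Om (ε δ : ℝ) (hε : 0 < ε) (hδ : 0 < δ) :
    ENNReal.ofReal (2 * ε * (1 - δ)) * J m δ ≤
      ∫⁻ z in Om m ε, ENNReal.ofReal (ff δ z.fst) := by
  have h := lintegral_region (Do m) measurableSet_Do (fun x => ε * (1 - S x))
    (measurable_const.mul (measurable_const.sub measurable_S)) (fun x => ENNReal.ofReal (ff δ x))
    (measurable_ff δ).ennreal_ofReal
  have h1 : {z : H m | z.fst ∈ Do m ∧ |z.snd| < ε * (1 - S z.fst)} = Om m ε := rfl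
  rw [h1] at h
  rw [h, J, mul_comm, ← lintegral_mul_const _ (measurable_ff δ).ennreal_ofReal]
  refine lintegral_mono fun x => ?_
  by_cases hx : S x < δ
  · refine mul_le_mul_right ?_ _
    exact ENNReal.ofReal_le_ofReal (by nlinarith)
  · have : ff δ x = 0 := by
      refine max_eq_left ?_
      have : 1 ≤ S x / δ := (one_le_div hδ).2 (not_lt.1 hx)
      linarith
    simp [this]

theorem measurableSet_To (a : ℝ) : MeasurableSet (To m a) := by
  have : To m a = {z : H m | z.fst ∈ Do m ∧ z.snd = a * (1 - S z.fst)} := by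
    ext z
    constructor
    · rintro ⟨x, hx, rfl⟩
      exact ⟨hx, rfl⟩
    · rintro ⟨h1, h2⟩
      refine ⟨z.fst, h1, ?_⟩
      apply WithLp.ofLp_injective 2
      exact Prod.ext (by simp [gr]) h2.symm
  rw [this]
  refine (continuous_fst.measurable measurableSet_Do).inter ?_
  exact measurableSet_eq_fun continuous_snd.measurable
    (measurable_const.mul (measurable_const.sub (measurable_S.comp continuous_fst.measurable)))

theorem le_frontier (ε : ℝ) (hε : 0 < ε) :
    2 * volume (Do m) ≤ (μHE[m] : Measure (H m)) (frontier (Om m ε)) := by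
  have h1 : Disjoint (To m ε) (To m (-ε)) := by
    rw [disjoint_left]
    rintro _ ⟨x, hx, rfl⟩ ⟨y, hy, hxy⟩
    have h2 : -ε * (1 - S y) = ε * (1 - S x) := congrArg WithLp.snd hxy
    have h3 := hx.2
    have h4 := hy.2
    nlinarith [mul_pos hε (sub_pos.2 h3), mul_pos hε (sub_pos.2 h4)]
  calc 2 * volume (Do m) = volume (Do m) + volume (Do m) := two_mul _
    _ ≤ μHE[m] (To m ε) + μHE[m] (To m (-ε)) := add_le_add (le_To _) (le_To _)
    _ = μHE[m] (To m ε ∪ To m (-ε)) := (measure_union h1 (measurableSet_To _)).symm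
    _ ≤ _ := measure_mono (union_subset (To_subset ε hε _ (Or.inl rfl))
        (To_subset ε hε _ (Or.inr rfl)))

theorem frontier_ne_top (ε : ℝ) (hε : 0 < ε) :
    (μHE[m] : Measure (H m)) (frontier (Om m ε)) ≠ ⊤ := by
  have h1 : frontier (Om m ε) ⊆ (gr ε '' Bx m ∪ gr (-ε) '' Bx m) ∪ ⋃ i, Sd m i ε := by
    intro z hz
    rcases frontier_Om ε hε.le z hz with h | ⟨h0, h1, h2⟩
    · rcases h with (h | h) | h
      · exact Or.inl (Or.inl (image_mono Do_subset_Bx h))
      · exact Or.inl (Or.inr (image_mono Do_subset_Bx h))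
      · exact Or.inr h
    · refine Or.inl (Or.inl ⟨z.fst, fun i => ⟨h0 i, ?_⟩, ?_⟩)
      · rw [← h1]
        exact Finset.single_le_sum (f := fun i => z.fst i) (fun j _ => h0 j) (Finset.mem_univ i)
      · apply WithLp.ofLp_injective 2
        refine Prod.ext (by simp [gr]) ?_
        simp only [gr, WithLp.ofLp_toLp]
        rw [h1, sub_self, mul_zero]
        exact h2.symm
  refine ((measure_mono h1).trans_lt ?_).ne
  refine (measure_union_le _ _).trans_lt (ENNReal.add_lt_top.2 ⟨(measure_union_le _ _).trans_lt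
    (ENNReal.add_lt_top.2 ⟨?_, ?_⟩), (measure_iUnion_le _).trans_lt ?_⟩)
  · refine (lip_image (lip_gr ε).lipschitzOnWith m).trans_lt ?_
    rw [EuclideanSpace.euclideanHausdorffMeasure_eq_volume, volume_Bx, mul_one]
    exact ENNReal.pow_lt_top ENNReal.coe_lt_top
  · refine (lip_image (lip_gr (-ε)).lipschitzOnWith m).trans_lt ?_
    rw [EuclideanSpace.euclideanHausdorffMeasure_eq_volume, volume_Bx, mul_one]
    exact ENNReal.pow_lt_top ENNReal.coe_lt_top
  · rw [tsum_fintype]
    exact ENNReal.sum_lt_top.2 fun i _ => (Sd_le i ε hε.le).trans_lt ENNReal.ofReal_lt_top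

/-- Lipschitz constant of the graph maps -/
def Kc (m : ℕ) (ε : ℝ) : ℝ≥0 := Real.toNNReal (Real.sqrt (1 + m * ε ^ 2))

theorem lintegral_To (a δ : ℝ) (ε : ℝ) (ha : a ^ 2 = ε ^ 2) :
    ∫⁻ z in To m a, ENNReal.ofReal (ff δ z.fst) ∂μHE[m] ≤ (Kc m ε : ℝ≥0∞) ^ m * J m δ := by
  have h := restrict_le (lip_gr (m := m) a) (Do m)
  calc ∫⁻ z in To m a, ENNReal.ofReal (ff δ z.fst) ∂μHE[m]
      ≤ ∫⁻ z, ENNReal.ofReal (ff δ z.fst) ∂(((Kc m ε : ℝ≥0∞) ^ m) •
          ((volume.restrict (Do m)).map (gr a))) := by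
        refine lintegral_mono' ?_ le_rfl
        have : Kc m ε = Real.toNNReal (Real.sqrt (1 + m * a ^ 2)) := by rw [Kc, ha]
        rw [this]
        exact h
    _ = (Kc m ε : ℝ≥0∞) ^ m * J m δ := by
        rw [lintegral_smul_measure, lintegral_map _ (lip_gr (m := m) a).continuous.measurable]
        · rfl
        · exact ((measurable_ff δ).comp continuous_fst.measurable).ennreal_ofReal

theorem lintegral_frontier (ε δ : ℝ) (hε : 0 < ε) (hδ : 0 < δ) (hδ1 : δ < 1) :
    ∫⁻ z in frontier (Om m ε), ENNReal.ofReal (ff δ z.fst) ∂μHE[m] ≤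
      2 * ((Kc m ε : ℝ≥0∞) ^ m * J m δ) + m * ENNReal.ofReal (2 * ε) := by
  have h1 : frontier (Om m ε) ⊆ ((To m ε ∪ To m (-ε)) ∪ ⋃ i, Sd m i ε) ∪
      {z : H m | ff δ z.fst = 0} := by
    intro z hz
    rcases frontier_Om ε hε.le z hz with h | ⟨h0, h1, h2⟩
    · exact Or.inl h
    · right
      show ff δ z.fst = 0
      refine max_eq_left ?_
      rw [h1]
      have : 1 ≤ 1 / δ := (one_le_div hδ).2 hδ1.le
      linarith
  refine (lintegral_mono_set h1).trans ?_
  refine (lintegral_union_le _ _ _).trans ?_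
  have h2 : ∫⁻ z in {z : H m | ff δ z.fst = 0}, ENNReal.ofReal (ff δ z.fst) ∂μHE[m] = 0 := by
    have hm : MeasurableSet {z : H m | ff δ z.fst = 0} :=
      measurableSet_eq_fun ((measurable_ff δ).comp continuous_fst.measurable) measurable_const
    refine (setLIntegral_congr_fun hm (g := fun _ => 0) fun z hz => ?_).trans (by simp)
    have : ff δ z.fst = 0 := hz
    simp [this]
  rw [h2, add_zero]
  refine (lintegral_union_le _ _ _).trans (add_le_add ?_ ?_)
  · refine (lintegral_union_le _ _ _).trans ?_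
    rw [two_mul]
    exact add_le_add (lintegral_To _ _ _ rfl) (lintegral_To _ _ _ (by ring))
  · refine (lintegral_iUnion_le _ _).trans ?_
    rw [tsum_fintype]
    calc ∑ i, ∫⁻ z in Sd m i ε, ENNReal.ofReal (ff δ z.fst) ∂μHE[m]
        ≤ ∑ i : Fin m, ENNReal.ofReal (2 * ε) := by
          refine Finset.sum_le_sum fun i _ => ?_
          have hm : MeasurableSet (Sd m i ε) := by
            have : Sd m i ε = {z | z.fst i = 0} ∩
              ((⋂ j, {z : H m | 0 ≤ z.fst j ∧ z.fst j ≤ 1}) ∩ {z | |z.snd| ≤ ε}) := by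
              ext z; simp [Sd]
            rw [this]
            have hc : ∀ j : Fin m, Measurable (fun z : H m => z.fst j) := fun j => by
              have h1 : Continuous (fun x : E m => x j) := by fun_prop
              exact (h1.comp continuous_fst).measurable
            refine (measurableSet_eq_fun (hc i) measurable_const).inter (MeasurableSet.inter ?_ ?_)
            · exact MeasurableSet.iInter fun j =>
                (measurableSet_le measurable_const (hc j)).inter
                  (measurableSet_le (hc j) measurable_const)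
            · exact measurableSet_le continuous_snd.abs.measurable measurable_const
          calc ∫⁻ z in Sd m i ε, ENNReal.ofReal (ff δ z.fst) ∂μHE[m]
              ≤ ∫⁻ _ in Sd m i ε, 1 ∂μHE[m] := by
                refine setLIntegral_mono' hm fun z hz => ?_
                rw [← ENNReal.ofReal_one]
                exact ENNReal.ofReal_le_ofReal (ff_le_one δ hδ _
                  (Finset.sum_nonneg fun j _ => (hz.2.1 j).1))
            _ = μHE[m] (Sd m i ε) := by simp
            _ ≤ _ := Sd_le i ε hε.le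
      _ = m * ENNReal.ofReal (2 * ε) := by simp

end

end Pool.Agent.H867R2.HH
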