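import Mathlib

set_option maxHeartbeats 1000000

open MeasureTheory Set
open scoped ENNReal NNReal Pointwise RealInnerProductSpace

namespace Pool.Agent.H867R2.Oct

section Hlawka
variable {E : Type*} [NormedAddCommGroup E] [InnerProductSpace ℝ E]

theorem hlawka (a b c : E) :
    ‖a + b‖ + ‖b + c‖ + ‖c + a‖ ≤ ‖a‖ + ‖b‖ + ‖c‖ + ‖a + b + c‖ := by
  have hsq : ‖a‖ ^ 2 + ‖b‖ ^ 2 + ‖c‖ ^ 2 + ‖a + b + c‖ ^ 2
      = ‖a + b‖ ^ 2 + ‖b + c‖ ^ 2 + ‖c + a‖ ^ 2 := by
    rw [norm_add_sq_real (a + b) c, norm_add_sq_real a b, norm_add_sq_real b c,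
      norm_add_sq_real c a, inner_add_left, real_inner_comm c a]
    ring
  have h1 : ‖a + b‖ ≤ ‖a‖ + ‖b‖ := norm_add_le _ _
  have h2 : ‖b + c‖ ≤ ‖b‖ + ‖c‖ := norm_add_le _ _
  have h3 : ‖c + a‖ ≤ ‖c‖ + ‖a‖ := norm_add_le _ _
  have k1 : ‖a + b‖ ≤ ‖a + b + c‖ + ‖c‖ := by
    have : a + b = (a + b + c) - c := by abel
    calc ‖a + b‖ = ‖(a + b + c) - c‖ := by rw [← this]
      _ ≤ _ := norm_sub_le _ _
  have k2 : ‖b + c‖ ≤ ‖a + b + c‖ + ‖a‖ := by
    have : b + c = (a + b + c) - a := by abel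
    calc ‖b + c‖ = ‖(a + b + c) - a‖ := by rw [← this]
      _ ≤ _ := norm_sub_le _ _
  have k3 : ‖c + a‖ ≤ ‖a + b + c‖ + ‖b‖ := by
    have : c + a = (a + b + c) - b := by abel
    calc ‖c + a‖ = ‖(a + b + c) - b‖ := by rw [← this]
      _ ≤ _ := norm_sub_le _ _
  have na := norm_nonneg a
  have nb := norm_nonneg b
  have nc := norm_nonneg c
  have ns := norm_nonneg (a + b + c)
  generalize ‖a + b + c‖ = s at *
  generalize ‖a + b‖ = p at *
  generalize ‖b + c‖ = q at *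
  generalize ‖c + a‖ = r at *
  generalize ‖a‖ = x at *
  generalize ‖b‖ = y at *
  generalize ‖c‖ = z at *
  have e1 : 0 ≤ (x + y - p) * (z - p + s) := mul_nonneg (by linarith) (by linarith)
  have e2 : 0 ≤ (y + z - q) * (x - q + s) := mul_nonneg (by linarith) (by linarith)
  have e3 : 0 ≤ (z + x - r) * (y - r + s) := mul_nonneg (by linarith) (by linarith)
  have key : 0 ≤ (x + y + z + s - (p + q + r)) * (x + y + z + s) := by
    nlinarith [e1, e2, e3, hsq]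
  by_contra hlt
  push Not at hlt
  have hneg : x + y + z + s - (p + q + r) < 0 := by linarith
  have hS : x + y + z + s ≤ 0 := by
    by_contra hpos
    push Not at hpos
    have := mul_neg_of_neg_of_pos hneg hpos
    linarith
  linarith

theorem hlawka' (x y z : E) :
    2 * (‖x‖ + ‖y‖ + ‖z‖) ≤
      ‖x + y + z‖ + ‖x + y - z‖ + ‖x - y + z‖ + ‖-x + y + z‖ := by
  have h := hlawka (x + y - z) (x - y + z) (-x + y + z)
  have e1 : (x + y - z) + (x - y + z) = (2 : ℝ) • x := by rw [two_smul]; abel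
  have e2 : (x - y + z) + (-x + y + z) = (2 : ℝ) • z := by rw [two_smul]; abel
  have e3 : (-x + y + z) + (x + y - z) = (2 : ℝ) • y := by rw [two_smul]; abel
  have e4 : (2 : ℝ) • x + (-x + y + z) = x + y + z := by rw [two_smul]; abel
  rw [e1, e2, e3, e4, norm_smul, norm_smul, norm_smul] at h
  have : ‖(2 : ℝ)‖ = 2 := by norm_num
  rw [this] at h
  linarith

/-- the real sign attached to a unit of `ℤ` -/
noncomputable def sg {n : ℕ} (ε : Fin n → ℤˣ) (i : Fin n) : ℝ := ((ε i : ℤ) : ℝ)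

theorem sg_mul {n : ℕ} (δ ε : Fin n → ℤˣ) (i : Fin n) : sg (δ * ε) i = sg δ i * sg ε i := by
  simp [sg]

theorem sg_sq {n : ℕ} (ε : Fin n → ℤˣ) (i : Fin n) : sg ε i * sg ε i = 1 := by
  unfold sg
  rcases Int.units_eq_one_or (ε i) with h | h <;> simp [h]

theorem abs_sg {n : ℕ} (ε : Fin n → ℤˣ) (i : Fin n) : |sg ε i| = 1 := by
  unfold sg
  rcases Int.units_eq_one_or (ε i) with h | h <;> simp [h]

theorem step1 {n : ℕ} (g : Fin n → E) (s : Finset (Fin n)) :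
    ∑ ε : Fin n → ℤˣ, ‖∑ l ∈ s, sg ε l • g l‖ ≤
      ∑ ε : Fin n → ℤˣ, ‖∑ l, sg ε l • g l‖ := by
  classical
  let δ : Fin n → ℤˣ := fun l => if l ∈ s then 1 else -1
  have hsum : ∑ ε : Fin n → ℤˣ, ‖∑ l, sg (δ * ε) l • g l‖
      = ∑ ε : Fin n → ℤˣ, ‖∑ l, sg ε l • g l‖ :=
    Fintype.sum_equiv (Equiv.mulLeft δ) _ _ (fun ε => rfl)
  have hpt : ∀ ε : Fin n → ℤˣ, 2 * ‖∑ l ∈ s, sg ε l • g l‖ ≤
      ‖∑ l, sg ε l • g l‖ + ‖∑ l, sg (δ * ε) l • g l‖ := by
    intro ε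
    have e : (2 : ℝ) • ∑ l ∈ s, sg ε l • g l = ∑ l, sg ε l • g l + ∑ l, sg (δ * ε) l • g l := by
      rw [← Finset.sum_add_distrib]
      have : ∀ l, sg ε l • g l + sg (δ * ε) l • g l
          = if l ∈ s then (2 : ℝ) • (sg ε l • g l) else 0 := by
        intro l
        rw [sg_mul]
        by_cases hl : l ∈ s
        · have : sg δ l = 1 := by simp [sg, δ, hl]
          rw [this, if_pos hl, one_mul, two_smul]
        · have : sg δ l = -1 := by simp [sg, δ, hl]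
          rw [this, if_neg hl, neg_one_mul, neg_smul, add_neg_cancel]
      simp_rw [this]
      rw [Finset.sum_ite_mem, Finset.univ_inter, Finset.smul_sum]
    calc 2 * ‖∑ l ∈ s, sg ε l • g l‖ = ‖(2 : ℝ) • ∑ l ∈ s, sg ε l • g l‖ := by
          rw [norm_smul]; norm_num
      _ ≤ _ := by rw [e]; exact norm_add_le _ _
  have := Finset.sum_le_sum (fun ε (_ : ε ∈ (Finset.univ : Finset (Fin n → ℤˣ))) => hpt ε)
  rw [Finset.sum_add_distrib, hsum, ← Finset.mul_sum] at this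
  linarith

theorem triple {n : ℕ} (g : Fin n → E) (i j k : Fin n) (hij : i ≠ j) (hik : i ≠ k)
    (hjk : j ≠ k) :
    2 ^ n * (‖g i‖ + ‖g j‖ + ‖g k‖) ≤ 2 * ∑ ε : Fin n → ℤˣ, ‖∑ l, sg ε l • g l‖ := by
  classical
  have h1 := step1 g {i, j, k}
  have hu : ∀ ε : Fin n → ℤˣ, ∑ l ∈ ({i, j, k} : Finset (Fin n)), sg ε l • g l
      = sg ε i • g i + sg ε j • g j + sg ε k • g k := by
    intro ε
    rw [Finset.sum_insert (by simp [hij, hik]), Finset.sum_insert (by simp [hjk]),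
      Finset.sum_singleton, add_assoc]
  simp_rw [hu] at h1
  let fl : Fin n → (Fin n → ℤˣ) := fun i l => if l = i then -1 else 1
  have hfl : ∀ i0 : Fin n, ∀ ε : Fin n → ℤˣ, ∀ l, sg (fl i0 * ε) l
      = if l = i0 then - sg ε l else sg ε l := by
    intro i0 ε l
    rw [sg_mul]
    by_cases h : l = i0
    · simp [sg, fl, h]
    · simp [sg, fl, h]
  have hs : ∀ i0 : Fin n, ∑ ε : Fin n → ℤˣ, ‖sg (fl i0 * ε) i • g i + sg (fl i0 * ε) j • g j
      + sg (fl i0 * ε) k • g k‖ = ∑ ε : Fin n → ℤˣ, ‖sg ε i • g i + sg ε j • g j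
      + sg ε k • g k‖ := fun i0 =>
    Fintype.sum_equiv (Equiv.mulLeft (fl i0)) _ _ (fun ε => rfl)
  have hi := hs i
  have hj := hs j
  have hk := hs k
  simp only [hfl, if_neg hij, if_neg hik, if_neg hjk, if_neg hij.symm, if_neg hik.symm,
    if_neg hjk.symm, if_true, neg_smul] at hi hj hk
  have hpt : ∀ ε : Fin n → ℤˣ, 2 * (‖g i‖ + ‖g j‖ + ‖g k‖) ≤
      ‖sg ε i • g i + sg ε j • g j + sg ε k • g k‖
      + ‖sg ε i • g i + sg ε j • g j + -(sg ε k • g k)‖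
      + ‖sg ε i • g i + -(sg ε j • g j) + sg ε k • g k‖
      + ‖-(sg ε i • g i) + sg ε j • g j + sg ε k • g k‖ := by
    intro ε
    have := hlawka' (sg ε i • g i) (sg ε j • g j) (sg ε k • g k)
    simp only [norm_smul, Real.norm_eq_abs, abs_sg, one_mul, sub_eq_add_neg] at this
    exact this
  have hsum := Finset.sum_le_sum (fun ε (_ : ε ∈ (Finset.univ : Finset (Fin n → ℤˣ))) => hpt ε)
  rw [Finset.sum_add_distrib, Finset.sum_add_distrib, Finset.sum_add_distrib, hi, hj, hk,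
    Finset.sum_const, Finset.card_univ, Fintype.card_pi_const, Fintype.card_units_int] at hsum
  simp only [nsmul_eq_mul, Nat.cast_pow, Nat.cast_ofNat] at hsum
  linarith

theorem average {m : ℕ} (g : Fin (m + 3) → E) :
    3 * 2 ^ (m + 3) * ∑ i, ‖g i‖ ≤
      2 * ((m + 3 : ℕ) : ℝ) * ∑ ε : Fin (m + 3) → ℤˣ, ‖∑ l, sg ε l • g l‖ := by
  have hne1 : (1 : Fin (m + 3)) ≠ 0 := by simp [Fin.ext_iff]
  have hne2 : (2 : Fin (m + 3)) ≠ 0 := by
    intro h; have := congrArg Fin.val h; simp at this; rw [Nat.mod_eq_of_lt (by omega)] at this; omega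
  have hne3 : (2 : Fin (m + 3)) ≠ 1 := by
    intro h; have := congrArg Fin.val h; simp at this; rw [Nat.mod_eq_of_lt (by omega)] at this; omega
  have h : ∀ i : Fin (m + 3), 2 ^ (m + 3) * (‖g i‖ + ‖g (i + 1)‖ + ‖g (i + 2)‖) ≤
      2 * ∑ ε : Fin (m + 3) → ℤˣ, ‖∑ l, sg ε l • g l‖ := by
    intro i
    refine triple g i (i + 1) (i + 2) ?_ ?_ ?_
    · intro h
      exact hne1 (by simpa using h.symm)
    · intro h
      exact hne2 (by simpa using h.symm)
    · intro h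
      exact hne3 (by simpa using h.symm)
  have hsum := Finset.sum_le_sum (fun i (_ : i ∈ (Finset.univ : Finset (Fin (m + 3)))) => h i)
  rw [← Finset.mul_sum, Finset.sum_add_distrib, Finset.sum_add_distrib,
    Fintype.sum_equiv (Equiv.addRight (1 : Fin (m + 3))) (fun i => ‖g (i + 1)‖) (fun i => ‖g i‖)
      (fun i => rfl),
    Fintype.sum_equiv (Equiv.addRight (2 : Fin (m + 3))) (fun i => ‖g (i + 2)‖) (fun i => ‖g i‖)
      (fun i => rfl), Finset.sum_const, Finset.card_univ, Fintype.card_fin, nsmul_eq_mul] at hsum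
  linarith

end Hlawka

end Pool.Agent.H867R2.Oct
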