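import Pool.Agent.H867R2.Oct1

set_option maxHeartbeats 1000000

open MeasureTheory Set
open scoped ENNReal NNReal Pointwise RealInnerProductSpace

namespace Pool.Agent.H867R2.Oct

/-- the punctured cone over a set -/
def cone {n : ℕ} (D : Set (EuclideanSpace ℝ (Fin n))) : Set (EuclideanSpace ℝ (Fin n)) :=
  {z | ∃ s : ℝ, 0 < s ∧ s ≤ 1 ∧ ∃ x ∈ D, z = s • x}

theorem cone_mono {n : ℕ} {D D' : Set (EuclideanSpace ℝ (Fin n))} (h : D ⊆ D') :
    cone D ⊆ cone D' := by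
  rintro z ⟨s, h1, h2, x, hx, rfl⟩
  exact ⟨s, h1, h2, x, h hx, rfl⟩

theorem cone_image {n : ℕ} (L : EuclideanSpace ℝ (Fin n) →ₗ[ℝ] EuclideanSpace ℝ (Fin n))
    (D : Set (EuclideanSpace ℝ (Fin n))) : cone (L '' D) = L '' cone D := by
  ext z
  constructor
  · rintro ⟨s, h1, h2, x, ⟨y, hy, rfl⟩, rfl⟩
    exact ⟨s • y, ⟨s, h1, h2, y, hy, rfl⟩, by simp⟩
  · rintro ⟨y, ⟨s, h1, h2, x, hx, rfl⟩, rfl⟩
    exact ⟨s, h1, h2, L x, ⟨x, hx, rfl⟩, by simp⟩

theorem cone_eq {n : ℕ} (w : EuclideanSpace ℝ (Fin n)) (D : Set (EuclideanSpace ℝ (Fin n)))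
    (hD : ∀ x ∈ D, ⟪w, x⟫ = 1) :
    cone D = {z | 0 < ⟪w, z⟫ ∧ ⟪w, z⟫ ≤ 1 ∧ (⟪w, z⟫)⁻¹ • z ∈ D} := by
  ext z
  constructor
  · rintro ⟨s, h1, h2, x, hx, rfl⟩
    have : ⟪w, s • x⟫ = s := by rw [inner_smul_right, hD x hx, mul_one]
    refine ⟨by rw [this]; exact h1, by rw [this]; exact h2, ?_⟩
    rw [this, smul_smul, inv_mul_cancel₀ h1.ne', one_smul]
    exact hx
  · rintro ⟨h1, h2, h3⟩
    refine ⟨⟪w, z⟫, h1, h2, _, h3, ?_⟩
    rw [smul_smul, mul_inv_cancel₀ h1.ne', one_smul]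

theorem measurableSet_cone {n : ℕ} (w : EuclideanSpace ℝ (Fin n))
    (D : Set (EuclideanSpace ℝ (Fin n))) (hDm : MeasurableSet D)
    (hD : ∀ x ∈ D, ⟪w, x⟫ = 1) : MeasurableSet (cone D) := by
  rw [cone_eq w D hD]
  have m1 : Measurable fun z : EuclideanSpace ℝ (Fin n) => ⟪w, z⟫ := by fun_prop
  refine (measurableSet_lt measurable_const m1).inter
    ((measurableSet_le m1 measurable_const).inter ?_)
  have m2 : Measurable fun z : EuclideanSpace ℝ (Fin n) => (⟪w, z⟫)⁻¹ • z :=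
    m1.inv.smul measurable_id
  exact m2 hDm

/-- Cone formula: the area of a piece of a hyperplane is, up to the factor
`n` over the distance, the volume of the cone over it. -/
theorem area_eq_cone {n : ℕ} (hn : n ≠ 0) (w : EuclideanSpace ℝ (Fin n))
    (D : Set (EuclideanSpace ℝ (Fin n))) (hDm : MeasurableSet D)
    (hD : ∀ x ∈ D, ⟪w, x⟫ = 1) :
    μHE[n - 1] D = (n : ℝ≥0∞) * ENNReal.ofReal ‖w‖ * volume (cone D) := by
  by_cases hw : w = 0
  · have : D = ∅ := by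
      rw [Set.eq_empty_iff_forall_notMem]
      intro x hx
      have := hD x hx
      rw [hw, inner_zero_left] at this
      exact zero_ne_one this
    subst this
    simp [hw]
  have hw0 : 0 < ‖w‖ := norm_pos_iff.2 hw
  set v : EuclideanSpace ℝ (Fin n) := (‖w‖ ^ 2)⁻¹ • w with hv
  have hv0 : v ≠ 0 := by
    rw [hv]; exact smul_ne_zero (by positivity) hw
  have hwv : ∀ z : EuclideanSpace ℝ (Fin n), ⟪v, z⟫ = (‖w‖ ^ 2)⁻¹ * ⟪w, z⟫ := by
    intro z; rw [hv, inner_smul_left]; simp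
  have hww : ⟪w, v⟫ = 1 := by
    rw [hv, inner_smul_right, real_inner_self_eq_norm_sq, inv_mul_cancel₀ (by positivity)]
  have hnv : ‖v‖ = ‖w‖⁻¹ := by
    rw [hv, norm_smul, norm_inv, norm_pow, norm_norm, pow_two]
    field_simp
  have hfr : Module.finrank ℝ (EuclideanSpace ℝ (Fin n)) = n := by simp
  have key := EuclideanGeometry.euclideanHausdorffMeasure_eq_lintegral
    (P := EuclideanSpace ℝ (Fin n)) 0 hv0 (measurableSet_cone w D hDm hD)
  rw [hfr, EuclideanSpace.euclideanHausdorffMeasure_eq_volume] at key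
  have hslice : ∀ x : ℝ, cone D ∩ (AffineSubspace.mk' (x • v +ᵥ (0 : EuclideanSpace ℝ (Fin n)))
      (ℝ ∙ v)ᗮ : Set (EuclideanSpace ℝ (Fin n))) = if 0 < x ∧ x ≤ 1 then x • D else ∅ := by
    intro x
    have hmem : ∀ z : EuclideanSpace ℝ (Fin n),
        z ∈ (AffineSubspace.mk' (x • v +ᵥ (0 : EuclideanSpace ℝ (Fin n)))
      (ℝ ∙ v)ᗮ : Set (EuclideanSpace ℝ (Fin n))) ↔ ⟪w, z⟫ = x := by
      intro z
      rw [SetLike.mem_coe, AffineSubspace.mem_mk', Submodule.mem_orthogonal_singleton_iff_inner_right,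
        vsub_eq_sub, vadd_eq_add, add_zero, hwv, inner_sub_right, inner_smul_right, hww, mul_one]
      constructor
      · intro h
        rcases mul_eq_zero.1 h with h | h
        · exact absurd h (by positivity)
        · linarith
      · intro h
        rw [h, sub_self, mul_zero]
    ext z
    rw [mem_inter_iff, hmem]
    split_ifs with hx
    · constructor
      · rintro ⟨⟨s, h1, h2, y, hy, rfl⟩, h⟩
        rw [inner_smul_right, hD y hy, mul_one] at h
        subst h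
        exact ⟨y, hy, rfl⟩
      · rintro ⟨y, hy, rfl⟩
        refine ⟨⟨x, hx.1, hx.2, y, hy, rfl⟩, ?_⟩
        simp only [inner_smul_right, hD y hy, mul_one]
    · simp only [mem_empty_iff_false, iff_false]
      rintro ⟨⟨s, h1, h2, y, hy, rfl⟩, h⟩
      rw [inner_smul_right, hD y hy, mul_one] at h
      subst h
      exact hx ⟨h1, h2⟩
  simp_rw [hslice] at key
  have hint : ∫⁻ x : ℝ, μHE[n - 1] (if 0 < x ∧ x ≤ 1 then x • D else ∅)
      = ENNReal.ofReal ((n : ℝ)⁻¹) * μHE[n - 1] D := by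
    have e1 : ∀ x : ℝ, μHE[n - 1] (if 0 < x ∧ x ≤ 1 then x • D else ∅)
        = (Ioc (0 : ℝ) 1).indicator (fun x => ENNReal.ofReal (x ^ (n - 1)) * μHE[n - 1] D) x := by
      intro x
      by_cases hx : 0 < x ∧ x ≤ 1
      · rw [if_pos hx, Set.indicator_of_mem (show x ∈ Ioc (0 : ℝ) 1 from hx),
          Measure.euclideanHausdorffMeasure_smul₀ _ hx.1.ne']
        rw [ENNReal.smul_def, smul_eq_mul, ENNReal.coe_pow, ENNReal.ofReal_pow hx.1.le,
          ← Real.enorm_of_nonneg hx.1.le]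
        rfl
      · rw [if_neg hx, Set.indicator_of_notMem (show x ∉ Ioc (0 : ℝ) 1 from hx)]
        simp
    simp_rw [e1]
    rw [lintegral_indicator measurableSet_Ioc, lintegral_mul_const _ (by fun_prop)]
    congr 1
    rw [← ofReal_integral_eq_lintegral_ofReal]
    · rw [← intervalIntegral.integral_of_le zero_le_one, integral_pow]
      congr 1
      have : n - 1 + 1 = n := by omega
      rw [this, one_pow, zero_pow hn, sub_zero, one_div]
      congr 1
      exact_mod_cast this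
    · exact ((continuous_pow (n - 1)).integrableOn_Icc).mono_set Ioc_subset_Icc_self
    · filter_upwards [ae_restrict_mem measurableSet_Ioc] with x hx
      exact pow_nonneg hx.1.le _
  rw [hint] at key
  rw [key]
  have hn' : (n : ℝ) ≠ 0 := by exact_mod_cast hn
  have e2 : ‖v‖ₑ = ENNReal.ofReal (‖w‖⁻¹) := by
    rw [← ofReal_norm, hnv]
  rw [e2]
  have e3 : (n : ℝ≥0∞) = ENNReal.ofReal (n : ℝ) := by simp
  rw [e3]
  have : ENNReal.ofReal (n : ℝ) * ENNReal.ofReal ‖w‖ *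
      (ENNReal.ofReal ‖w‖⁻¹ * (ENNReal.ofReal (n : ℝ)⁻¹ * μHE[n - 1] D))
      = (ENNReal.ofReal (n : ℝ) * ENNReal.ofReal ‖w‖ * ENNReal.ofReal ‖w‖⁻¹ *
        ENNReal.ofReal (n : ℝ)⁻¹) * μHE[n - 1] D := by ring
  rw [this, ← ENNReal.ofReal_mul (by positivity), ← ENNReal.ofReal_mul (by positivity),
    ← ENNReal.ofReal_mul (by positivity)]
  have : (n : ℝ) * ‖w‖ * ‖w‖⁻¹ * (n : ℝ)⁻¹ = 1 := by
    field_simp
  rw [this, ENNReal.ofReal_one, one_mul]

/-- area of the image of a piece of a hyperplane under an invertible linear map -/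
theorem area_image {n : ℕ} (hn : n ≠ 0)
    (A : EuclideanSpace ℝ (Fin n) ≃L[ℝ] EuclideanSpace ℝ (Fin n))
    (w : EuclideanSpace ℝ (Fin n)) (D : Set (EuclideanSpace ℝ (Fin n))) (hDm : MeasurableSet D)
    (hD : ∀ x ∈ D, ⟪w, A x⟫ = 1) :
    μHE[n - 1] (A '' D) = (n : ℝ≥0∞) * ENNReal.ofReal ‖w‖ *
      (ENNReal.ofReal |LinearMap.det (A.toLinearEquiv : EuclideanSpace ℝ (Fin n) →ₗ[ℝ]
        EuclideanSpace ℝ (Fin n))| * volume (cone D)) := by
  have hm : MeasurableSet (A '' D) :=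
    (A.toHomeomorph.toMeasurableEquiv.measurableSet_image).2 hDm
  rw [area_eq_cone hn w (A '' D) hm (by rintro _ ⟨x, hx, rfl⟩; exact hD x hx)]
  have h1 : cone (A '' D) = (A.toLinearEquiv : EuclideanSpace ℝ (Fin n) →ₗ[ℝ]
        EuclideanSpace ℝ (Fin n)) '' cone D := cone_image _ D
  rw [h1, Measure.addHaar_image_linearMap]

end Pool.Agent.H867R2.Oct
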