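import Pool.Agent.H867R2.Oct2

set_option maxHeartbeats 1000000

open MeasureTheory Set
open scoped ENNReal NNReal Pointwise RealInnerProductSpace

namespace Pool.Agent.H867R2.Oct

/-- the standard simplex in the hyperplane `∑ x_i = 1` -/
def Del (n : ℕ) : Set (EuclideanSpace ℝ (Fin n)) := {x | (∀ i, 0 ≤ x i) ∧ ∑ i, x i = 1}

/-- the sign change isometry -/
noncomputable def sig {n : ℕ} (ε : Fin n → ℤˣ) :
    EuclideanSpace ℝ (Fin n) ≃ₗᵢ[ℝ] EuclideanSpace ℝ (Fin n) where
  toFun x := WithLp.toLp 2 (fun i => sg ε i * x i)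
  invFun x := WithLp.toLp 2 (fun i => sg ε i * x i)
  map_add' x y := by ext i; simp [mul_add]
  map_smul' c x := by ext i; simp; ring
  left_inv x := by ext i; simp [← mul_assoc, sg_sq]
  right_inv x := by ext i; simp [← mul_assoc, sg_sq]
  norm_map' x := by
    rw [EuclideanSpace.norm_eq, EuclideanSpace.norm_eq]
    congr 1
    refine Finset.sum_congr rfl fun i _ => ?_
    simp [norm_mul, Real.norm_eq_abs, abs_sg]

theorem sig_apply {n : ℕ} (ε : Fin n → ℤˣ) (x : EuclideanSpace ℝ (Fin n)) (i : Fin n) :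
    sig ε x i = sg ε i * x i := rfl

theorem sig_sig {n : ℕ} (ε : Fin n → ℤˣ) (x : EuclideanSpace ℝ (Fin n)) :
    sig ε (sig ε x) = x := by
  ext i
  rw [sig_apply, sig_apply, ← mul_assoc, sg_sq, one_mul]

theorem volume_sig {n : ℕ} (ε : Fin n → ℤˣ) (X : Set (EuclideanSpace ℝ (Fin n))) :
    volume (sig ε '' X) = volume X := by
  rw [LinearIsometryEquiv.image_eq_preimage_symm]
  exact ((sig ε).symm.measurePreserving).measure_preimage_emb
    (sig ε).symm.toHomeomorph.measurableEmbedding X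

/-- The map `y ↦ t y + φ(y) e_i`, written as `t` times a transvection. -/
noncomputable def trv {n : ℕ} (t : ℝ) (φ : Module.Dual ℝ (EuclideanSpace ℝ (Fin n))) (i : Fin n) :
    EuclideanSpace ℝ (Fin n) →ₗ[ℝ] EuclideanSpace ℝ (Fin n) :=
  t • LinearMap.transvection φ (EuclideanSpace.single i (1 : ℝ))

theorem trv_apply {n : ℕ} (t : ℝ) (φ : Module.Dual ℝ (EuclideanSpace ℝ (Fin n))) (i : Fin n)
    (y : EuclideanSpace ℝ (Fin n)) (j : Fin n) :
    trv t φ i y j = t * (y j + if j = i then φ y else 0) := by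
  simp [trv, LinearMap.transvection.apply, mul_add]

theorem det_trv {n : ℕ} (t : ℝ) (φ : Module.Dual ℝ (EuclideanSpace ℝ (Fin n))) (i : Fin n) :
    LinearMap.det (trv t φ i) = t ^ n * (1 + φ (EuclideanSpace.single i (1 : ℝ))) := by
  rw [trv, LinearMap.det_smul, LinearMap.transvection.det]
  simp

/-- the sum-of-coordinates functional -/
noncomputable def sumF (n : ℕ) : Module.Dual ℝ (EuclideanSpace ℝ (Fin n)) where
  toFun x := ∑ i, x i
  map_add' x y := by simp [Finset.sum_add_distrib]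
  map_smul' c x := by simp [Finset.mul_sum]

theorem sumF_apply {n : ℕ} (x : EuclideanSpace ℝ (Fin n)) : sumF n x = ∑ i, x i := rfl

/-- coordinate functional -/
noncomputable def coordF {n : ℕ} (i : Fin n) : Module.Dual ℝ (EuclideanSpace ℝ (Fin n)) where
  toFun x := x i
  map_add' x y := by simp
  map_smul' c x := by simp

theorem coordF_apply {n : ℕ} (i : Fin n) (x : EuclideanSpace ℝ (Fin n)) : coordF i x = x i := rfl

/-- homothety of the simplex towards the vertex `e_i` -/
noncomputable def Lm {n : ℕ} (t : ℝ) (i : Fin n) :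
    EuclideanSpace ℝ (Fin n) →ₗ[ℝ] EuclideanSpace ℝ (Fin n) :=
  trv t (((1 - t) / t) • sumF n) i

/-- parametrisation of the new facet -/
noncomputable def Mm {n : ℕ} (t : ℝ) (i : Fin n) :
    EuclideanSpace ℝ (Fin n) →ₗ[ℝ] EuclideanSpace ℝ (Fin n) :=
  trv t (((1 - t) / t) • sumF n - coordF i) i

theorem det_Lm {n : ℕ} (hn : n ≠ 0) (t : ℝ) (ht : t ≠ 0) (i : Fin n) :
    LinearMap.det (Lm t i) = t ^ (n - 1) := by
  rw [Lm, det_trv]
  simp only [LinearMap.smul_apply, sumF_apply, PiLp.single_apply, Finset.sum_ite_eq',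
    Finset.mem_univ, if_true, smul_eq_mul, mul_one]
  obtain ⟨k, rfl⟩ := Nat.exists_eq_succ_of_ne_zero hn
  simp only [Nat.succ_eq_add_one, Nat.add_sub_cancel, pow_succ]
  field_simp
  ring

theorem det_Mm {n : ℕ} (hn : n ≠ 0) (t : ℝ) (ht : t ≠ 0) (i : Fin n) :
    LinearMap.det (Mm t i) = (1 - t) * t ^ (n - 1) := by
  rw [Mm, det_trv]
  simp only [LinearMap.sub_apply, LinearMap.smul_apply, sumF_apply, coordF_apply,
    PiLp.single_apply, Finset.sum_ite_eq',
    Finset.mem_univ, if_true, smul_eq_mul, mul_one]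
  obtain ⟨k, rfl⟩ := Nat.exists_eq_succ_of_ne_zero hn
  simp only [Nat.succ_eq_add_one, Nat.add_sub_cancel, pow_succ]
  field_simp
  ring

theorem Lm_apply_self {n : ℕ} (t : ℝ) (ht : t ≠ 0) (i : Fin n) (y : EuclideanSpace ℝ (Fin n)) :
    Lm t i y i = t * y i + (1 - t) * ∑ j, y j := by
  rw [Lm, trv_apply, if_pos rfl]
  simp only [LinearMap.smul_apply, sumF_apply, smul_eq_mul]
  field_simp

theorem Lm_apply_ne {n : ℕ} (t : ℝ) (i j : Fin n) (h : j ≠ i) (y : EuclideanSpace ℝ (Fin n)) :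
    Lm t i y j = t * y j := by
  rw [Lm, trv_apply, if_neg h, add_zero]

theorem Mm_apply_self {n : ℕ} (t : ℝ) (ht : t ≠ 0) (i : Fin n) (y : EuclideanSpace ℝ (Fin n)) :
    Mm t i y i = (1 - t) * ∑ j, y j := by
  rw [Mm, trv_apply, if_pos rfl]
  simp only [LinearMap.sub_apply, LinearMap.smul_apply, sumF_apply, coordF_apply, smul_eq_mul]
  field_simp
  ring

theorem Mm_apply_ne {n : ℕ} (t : ℝ) (i j : Fin n) (h : j ≠ i) (y : EuclideanSpace ℝ (Fin n)) :
    Mm t i y j = t * y j := by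
  rw [Mm, trv_apply, if_neg h, add_zero]

theorem sum_Lm {n : ℕ} (t : ℝ) (ht : t ≠ 0) (i : Fin n) (y : EuclideanSpace ℝ (Fin n)) :
    ∑ j, Lm t i y j = ∑ j, y j := by
  have : ∀ j, Lm t i y j = t * y j + if j = i then (1 - t) * ∑ j, y j else 0 := by
    intro j
    by_cases h : j = i
    · subst h; rw [Lm_apply_self t ht, if_pos rfl]
    · rw [Lm_apply_ne t i j h, if_neg h, add_zero]
  simp_rw [this]
  rw [Finset.sum_add_distrib, ← Finset.mul_sum, Finset.sum_ite_eq', if_pos (Finset.mem_univ _)]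
  ring

/-- corner of the simplex -/
def Kc (n : ℕ) (t : ℝ) (i : Fin n) : Set (EuclideanSpace ℝ (Fin n)) := {x ∈ Del n | 1 - t ≤ x i}

theorem Lm_image_subset {n : ℕ} (t : ℝ) (ht : 0 < t) (ht1 : t < 1) (i : Fin n) :
    Lm t i '' Del n ⊆ Kc n t i := by
  rintro _ ⟨y, ⟨hy0, hy1⟩, rfl⟩
  refine ⟨⟨?_, ?_⟩, ?_⟩
  · intro j
    by_cases h : j = i
    · subst h
      rw [Lm_apply_self t ht.ne', hy1]
      have := mul_nonneg ht.le (hy0 j)
      linarith
    · rw [Lm_apply_ne t i j h]
      exact mul_nonneg ht.le (hy0 j)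
  · rw [sum_Lm t ht.ne', hy1]
  · rw [Lm_apply_self t ht.ne', hy1]
    have := mul_nonneg ht.le (hy0 i)
    linarith

theorem isClosed_Del (n : ℕ) : IsClosed (Del n) := by
  have : Del n = (⋂ i, {x | 0 ≤ x i}) ∩ {x | ∑ i, x i = 1} := by
    ext x; simp [Del]
  rw [this]
  refine IsClosed.inter (isClosed_iInter fun i => ?_) ?_
  · exact isClosed_le continuous_const (by fun_prop)
  · exact isClosed_eq (by fun_prop) continuous_const

theorem isClosed_Kc (n : ℕ) (t : ℝ) (i : Fin n) : IsClosed (Kc n t i) :=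
  (isClosed_Del n).inter (isClosed_le continuous_const
    (show Continuous fun x : EuclideanSpace ℝ (Fin n) => x i by fun_prop))

/-- the vector of ones -/
noncomputable def one' (n : ℕ) : EuclideanSpace ℝ (Fin n) := WithLp.toLp 2 (fun _ => 1)

theorem inner_one' {n : ℕ} (x : EuclideanSpace ℝ (Fin n)) : ⟪one' n, x⟫ = ∑ i, x i := by
  simp [one', PiLp.inner_apply]

/-- the volume of the standard simplex -/
noncomputable def V (n : ℕ) : ℝ≥0∞ := volume (cone (Del n))

theorem volume_cone_Kc {n : ℕ} (hn : n ≠ 0) (t : ℝ) (ht : 0 < t) (ht1 : t < 1) (i : Fin n) :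
    ENNReal.ofReal (t ^ (n - 1)) * V n ≤ volume (cone (Kc n t i)) := by
  calc ENNReal.ofReal (t ^ (n - 1)) * V n = volume (Lm t i '' cone (Del n)) := by
        rw [Measure.addHaar_image_linearMap, det_Lm hn t ht.ne', abs_of_nonneg (by positivity), V]
    _ = volume (cone (Lm t i '' Del n)) := by rw [cone_image]
    _ ≤ _ := measure_mono (cone_mono (Lm_image_subset t ht ht1 i))

theorem volume_cone_Mm {n : ℕ} (hn : n ≠ 0) (t : ℝ) (ht : 0 < t) (ht1 : t < 1) (i : Fin n) :
    volume (cone (Mm t i '' Del n)) = ENNReal.ofReal ((1 - t) * t ^ (n - 1)) * V n := by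
  have h1 : 0 ≤ 1 - t := by linarith
  rw [cone_image, Measure.addHaar_image_linearMap, det_Mm hn t ht.ne',
    abs_of_nonneg (by positivity), V]

/-- the remaining part of the simplex facet -/
def Rest (n : ℕ) (t : ℝ) : Set (EuclideanSpace ℝ (Fin n)) := Del n \ ⋃ i, Kc n t i

theorem measurableSet_Rest (n : ℕ) (t : ℝ) : MeasurableSet (Rest n t) :=
  (isClosed_Del n).measurableSet.diff
    (MeasurableSet.iUnion fun i => (isClosed_Kc n t i).measurableSet)

theorem cone_disjoint {n : ℕ} {D D' : Set (EuclideanSpace ℝ (Fin n))} (w : EuclideanSpace ℝ (Fin n))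
    (hD : ∀ x ∈ D, ⟪w, x⟫ = 1) (hD' : ∀ x ∈ D', ⟪w, x⟫ = 1) (h : Disjoint D D') :
    Disjoint (cone D) (cone D') := by
  rw [Set.disjoint_left]
  rintro _ ⟨s, h1, h2, x, hx, rfl⟩ ⟨s', h1', h2', x', hx', he⟩
  have e := congrArg (fun z => ⟪w, z⟫) he
  simp only [inner_smul_right, hD x hx, hD' x' hx', mul_one] at e
  subst e
  have : x = x' := smul_right_injective _ h1.ne' he
  subst this
  exact Set.disjoint_left.1 h hx hx'

theorem volume_cone_Rest {n : ℕ} (hn : n ≠ 0) (t : ℝ) (ht : 0 < t) (ht1 : t < 1 / 2) :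
    volume (cone (Rest n t)) + (n : ℝ≥0∞) * (ENNReal.ofReal (t ^ (n - 1)) * V n) ≤ V n := by
  have hone : ∀ x ∈ Del n, ⟪one' n, x⟫ = 1 := by
    intro x hx; rw [inner_one', hx.2]
  have hK : ∀ i, ∀ x ∈ Kc n t i, ⟪one' n, x⟫ = 1 := fun i x hx => hone x hx.1
  have hR : ∀ x ∈ Rest n t, ⟪one' n, x⟫ = 1 := fun x hx => hone x hx.1
  have hmK : ∀ i, MeasurableSet (cone (Kc n t i)) := fun i =>
    measurableSet_cone (one' n) _ (isClosed_Kc n t i).measurableSet (hK i)
  have hmR : MeasurableSet (cone (Rest n t)) :=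
    measurableSet_cone (one' n) _ (measurableSet_Rest n t) hR
  have hdK : Pairwise (Function.onFun Disjoint fun i => cone (Kc n t i)) := by
    intro i j hij
    refine cone_disjoint (one' n) (hK i) (hK j) ?_
    rw [Set.disjoint_left]
    rintro x ⟨⟨hx0, hx1⟩, hxi⟩ ⟨-, hxj⟩
    have : x i + x j ≤ ∑ k, x k := by
      rw [← Finset.sum_pair hij]
      exact Finset.sum_le_sum_of_subset_of_nonneg (Finset.subset_univ _) fun k _ _ => hx0 k
    rw [hx1] at this
    linarith
  have hdR : Disjoint (cone (Rest n t)) (⋃ i, cone (Kc n t i)) := by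
    rw [Set.disjoint_iUnion_right]
    intro i
    refine cone_disjoint (one' n) hR (hK i) ?_
    rw [Set.disjoint_left]
    intro x hx hxi
    exact hx.2 (mem_iUnion.2 ⟨i, hxi⟩)
  calc volume (cone (Rest n t)) + (n : ℝ≥0∞) * (ENNReal.ofReal (t ^ (n - 1)) * V n)
      = volume (cone (Rest n t)) + ∑ i : Fin n, (ENNReal.ofReal (t ^ (n - 1)) * V n) := by
        rw [Finset.sum_const, Finset.card_univ, Fintype.card_fin, nsmul_eq_mul]
    _ ≤ volume (cone (Rest n t)) + ∑ i : Fin n, volume (cone (Kc n t i)) := by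
        gcongr with i
        exact volume_cone_Kc hn t ht (by linarith) i
    _ = volume (cone (Rest n t)) + volume (⋃ i, cone (Kc n t i)) := by
        rw [measure_iUnion hdK hmK, tsum_fintype]
    _ = volume (cone (Rest n t) ∪ ⋃ i, cone (Kc n t i)) := by
        rw [measure_union hdR (MeasurableSet.iUnion hmK)]
    _ ≤ V n := by
        refine measure_mono (union_subset (cone_mono fun x hx => hx.1)
          (iUnion_subset fun i => cone_mono fun x hx => hx.1))

/-- the open facet -/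
def Delo (n : ℕ) : Set (EuclideanSpace ℝ (Fin n)) := {x | (∀ i, 0 < x i) ∧ ∑ i, x i = 1}

theorem measurableSet_Delo (n : ℕ) : MeasurableSet (Delo n) := by
  have : Delo n = (⋂ i, {x | 0 < x i}) ∩ {x | ∑ i, x i = 1} := by
    ext x; simp [Delo]
  rw [this]
  refine MeasurableSet.inter (MeasurableSet.iInter fun i => ?_) ?_
  · exact measurableSet_lt measurable_const (by fun_prop)
  · exact (isClosed_eq (by fun_prop) continuous_const).measurableSet

theorem volume_coord_zero {n : ℕ} (i : Fin n) :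
    volume {z : EuclideanSpace ℝ (Fin n) | z i = 0} = 0 := by
  have := Measure.addHaar_submodule (volume : Measure (EuclideanSpace ℝ (Fin n)))
    (LinearMap.ker (coordF i)) ?_
  · convert this using 2
    ext z
    simp [coordF_apply]
  · intro h
    rw [LinearMap.ker_eq_top] at h
    have := congrArg (fun f => f (EuclideanSpace.single i (1 : ℝ))) h
    simp [coordF_apply] at this

theorem volume_cone_Delo (n : ℕ) : volume (cone (Delo n)) = V n := by
  refine le_antisymm (measure_mono (cone_mono fun x hx => ⟨fun i => (hx.1 i).le, hx.2⟩)) ?_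
  have hsub : cone (Del n) ⊆ cone (Delo n) ∪ ⋃ i, {z : EuclideanSpace ℝ (Fin n) | z i = 0} := by
    rintro _ ⟨s, h1, h2, x, hx, rfl⟩
    by_cases h : ∀ i, 0 < x i
    · exact Or.inl ⟨s, h1, h2, x, ⟨h, hx.2⟩, rfl⟩
    · push Not at h
      obtain ⟨i, hi⟩ := h
      refine Or.inr (mem_iUnion.2 ⟨i, ?_⟩)
      have : x i = 0 := le_antisymm hi (hx.1 i)
      simp [this]
  calc V n ≤ volume (cone (Delo n) ∪ ⋃ i, {z : EuclideanSpace ℝ (Fin n) | z i = 0}) :=
        measure_mono hsub
    _ ≤ volume (cone (Delo n)) + volume (⋃ i, {z : EuclideanSpace ℝ (Fin n) | z i = 0}) :=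
        measure_union_le _ _
    _ = volume (cone (Delo n)) := by
        rw [measure_iUnion_null fun i => volume_coord_zero i, add_zero]

end Pool.Agent.H867R2.Oct
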