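import Pool.Agent.H867R2.Oct3

set_option maxHeartbeats 1000000

open MeasureTheory Set Filter Topology
open scoped ENNReal NNReal Pointwise RealInnerProductSpace

namespace Pool.Agent.H867R2.Oct

/-- cross-polytope -/
def Oc (n : ℕ) : Set (EuclideanSpace ℝ (Fin n)) := {x | ∑ i, |x i| ≤ 1}

/-- truncated cross-polytope -/
def Tr (n : ℕ) (t : ℝ) : Set (EuclideanSpace ℝ (Fin n)) :=
  {x | ∑ i, |x i| ≤ 1 ∧ ∀ i, |x i| ≤ 1 - t}

theorem isClosed_Oc (n : ℕ) : IsClosed (Oc n) :=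
  isClosed_le (by fun_prop) continuous_const

theorem isClosed_Tr (n : ℕ) (t : ℝ) : IsClosed (Tr n t) := by
  have : Tr n t = Oc n ∩ ⋂ i, {x | |x i| ≤ 1 - t} := by
    ext x; simp [Tr, Oc]
  rw [this]
  refine (isClosed_Oc n).inter (isClosed_iInter fun i => isClosed_le ?_ continuous_const)
  fun_prop

theorem bounded_Oc (n : ℕ) : Bornology.IsBounded (Oc n) := by
  refine (Metric.isBounded_closedBall (x := (0 : EuclideanSpace ℝ (Fin n))) (r := 1)).subset ?_
  intro x hx
  rw [mem_closedBall_zero_iff, EuclideanSpace.norm_eq, Real.sqrt_le_iff, one_pow]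
  refine ⟨zero_le_one, ?_⟩
  have hx' : ∑ i, |x i| ≤ 1 := hx
  have h0 : ∀ i, |x i| ≤ 1 := fun i =>
    (Finset.single_le_sum (f := fun i => |x i|) (fun i _ => abs_nonneg _) (Finset.mem_univ i)).trans hx'
  calc ∑ i, ‖x i‖ ^ 2 ≤ ∑ i, |x i| := by
        refine Finset.sum_le_sum fun i _ => ?_
        rw [Real.norm_eq_abs]
        nlinarith [abs_nonneg (x i), h0 i]
    _ ≤ 1 := hx'

theorem Tr_subset (n : ℕ) (t : ℝ) : Tr n t ⊆ Oc n := fun _ hx => hx.1

theorem isCompact_Oc (n : ℕ) : IsCompact (Oc n) :=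
  Metric.isCompact_of_isClosed_isBounded (isClosed_Oc n) (bounded_Oc n)

theorem isCompact_Tr (n : ℕ) (t : ℝ) : IsCompact (Tr n t) :=
  (isCompact_Oc n).of_isClosed_subset (isClosed_Tr n t) (Tr_subset n t)

theorem convex_Oc (n : ℕ) : Convex ℝ (Oc n) := by
  intro x hx y hy a b ha hb hab
  show ∑ i, |(a • x + b • y) i| ≤ 1
  have hx' : ∑ i, |x i| ≤ 1 := hx
  have hy' : ∑ i, |y i| ≤ 1 := hy
  calc ∑ i, |(a • x + b • y) i| ≤ ∑ i, (a * |x i| + b * |y i|) := by
        refine Finset.sum_le_sum fun i _ => ?_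
        simp only [PiLp.add_apply, PiLp.smul_apply, smul_eq_mul]
        refine (abs_add_le _ _).trans ?_
        rw [abs_mul, abs_mul, abs_of_nonneg ha, abs_of_nonneg hb]
    _ = a * ∑ i, |x i| + b * ∑ i, |y i| := by
        rw [Finset.sum_add_distrib, Finset.mul_sum, Finset.mul_sum]
    _ ≤ a * 1 + b * 1 := by gcongr
    _ = 1 := by rw [mul_one, mul_one, hab]

theorem convex_Tr (n : ℕ) (t : ℝ) : Convex ℝ (Tr n t) := by
  intro x hx y hy a b ha hb hab
  refine ⟨convex_Oc n hx.1 hy.1 ha hb hab, fun i => ?_⟩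
  simp only [PiLp.add_apply, PiLp.smul_apply, smul_eq_mul]
  refine (abs_add_le _ _).trans ?_
  rw [abs_mul, abs_mul, abs_of_nonneg ha, abs_of_nonneg hb]
  calc a * |x i| + b * |y i| ≤ a * (1 - t) + b * (1 - t) := by
        gcongr
        · exact hx.2 i
        · exact hy.2 i
    _ = 1 - t := by rw [← add_mul, hab, one_mul]

theorem interior_Tr_nonempty (n : ℕ) (t : ℝ) (ht1 : t < 1) : (interior (Tr n t)).Nonempty := by
  have hopen : IsOpen ({x : EuclideanSpace ℝ (Fin n) | ∑ i, |x i| < 1} ∩ ⋂ i, {x | |x i| < 1 - t}) := by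
    refine (isOpen_lt (by fun_prop) continuous_const).inter
      (isOpen_iInter_of_finite fun i => isOpen_lt ?_ continuous_const)
    fun_prop
  refine ⟨0, interior_maximal ?_ hopen ?_⟩
  · rintro x ⟨h1, h2⟩
    exact ⟨le_of_lt h1, fun i => le_of_lt (mem_iInter.1 h2 i)⟩
  · refine ⟨by simp, ?_⟩
    rw [mem_iInter]
    intro i
    simp only [mem_ofPred_eq, PiLp.zero_apply, abs_zero]
    linarith

theorem neg_Oc (n : ℕ) : -(Oc n) = Oc n := by
  ext x; simp [Oc]

theorem neg_Tr (n : ℕ) (t : ℝ) : -(Tr n t) = Tr n t := by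
  ext x; simp [Tr]

theorem frontier_Oc (n : ℕ) (x : EuclideanSpace ℝ (Fin n)) (hx : ∑ i, |x i| = 1) :
    x ∈ frontier (Oc n) := by
  rw [(isClosed_Oc n).frontier_eq]
  refine ⟨le_of_eq hx, fun hint => ?_⟩
  have hcont : Tendsto (fun s : ℝ => s • x) (𝓝[>] 1) (𝓝 x) := by
    have : Tendsto (fun s : ℝ => s • x) (𝓝 1) (𝓝 ((1 : ℝ) • x)) :=
      (continuous_id.smul continuous_const).tendsto 1
    rw [one_smul] at this
    exact this.mono_left nhdsWithin_le_nhds
  have hev : ∀ᶠ s : ℝ in 𝓝[>] 1, s • x ∈ interior (Oc n) :=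
    hcont.eventually (isOpen_interior.mem_nhds hint)
  obtain ⟨s, hs1, hs2⟩ := (hev.and self_mem_nhdsWithin).exists
  have h1 : s • x ∈ Oc n := interior_subset hs1
  have h2 : ∑ i, |(s • x) i| ≤ 1 := h1
  have hs2' : 1 < s := hs2
  simp only [PiLp.smul_apply, smul_eq_mul, abs_mul] at h2
  rw [← Finset.mul_sum, hx, mul_one, abs_of_pos (by linarith)] at h2
  linarith

/-- the sign vector of a point -/
noncomputable def sgnOf {n : ℕ} (x : EuclideanSpace ℝ (Fin n)) : Fin n → ℤˣ :=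
  fun i => if 0 ≤ x i then 1 else -1

theorem sig_sgnOf {n : ℕ} (x : EuclideanSpace ℝ (Fin n)) (i : Fin n) :
    sig (sgnOf x) x i = |x i| := by
  rw [sig_apply]
  unfold sg sgnOf
  by_cases h : 0 ≤ x i
  · simp [h, abs_of_nonneg h]
  · push Not at h
    simp [not_le.2 h, abs_of_neg h]

theorem mem_Mm_image {n : ℕ} (t : ℝ) (ht : 0 < t) (i : Fin n) (y : EuclideanSpace ℝ (Fin n))
    (h0 : ∀ j, 0 ≤ y j) (h1 : ∑ j, y j ≤ 1) (hi : y i = 1 - t) : y ∈ Mm t i '' Del n := by
  set c : ℝ := 1 - (∑ k, y k - (1 - t)) / t - y i / t with hc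
  obtain ⟨z, hz⟩ : ∃ z : EuclideanSpace ℝ (Fin n), ∀ j, z j = y j / t + if j = i then c else 0 :=
    ⟨WithLp.toLp 2 (fun j => y j / t + if j = i then c else 0), fun j => rfl⟩
  have hsum : ∑ j, z j = 1 := by
    simp_rw [hz]
    rw [Finset.sum_add_distrib, Finset.sum_ite_eq', if_pos (Finset.mem_univ _),
      ← Finset.sum_div, hc, hi]
    ring
  refine ⟨z, ⟨?_, hsum⟩, ?_⟩
  · intro j
    rw [hz]
    by_cases h : j = i
    · subst h
      rw [if_pos rfl, hc]
      have : (∑ k, y k - (1 - t)) / t ≤ 1 := by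
        rw [div_le_one ht]; linarith
      linarith
    · rw [if_neg h, add_zero]
      exact div_nonneg (h0 j) ht.le
  · ext j
    by_cases h : j = i
    · subst h
      rw [Mm_apply_self t ht.ne', hsum, mul_one, hi]
    · rw [Mm_apply_ne t i j h, hz, if_neg h, add_zero]
      field_simp

theorem frontier_Tr_subset (n : ℕ) (t : ℝ) (ht : 0 < t) :
    frontier (Tr n t) ⊆ ⋃ ε : Fin n → ℤˣ, (sig ε '' Rest n t ∪
      ⋃ i : Fin n, sig ε '' (Mm t i '' Del n)) := by
  intro x hx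
  rw [(isClosed_Tr n t).frontier_eq] at hx
  obtain ⟨hxT, hxi⟩ := hx
  have hopen : IsOpen ({x : EuclideanSpace ℝ (Fin n) | ∑ i, |x i| < 1} ∩ ⋂ i, {x | |x i| < 1 - t}) := by
    refine (isOpen_lt (by fun_prop) continuous_const).inter
      (isOpen_iInter_of_finite fun i => isOpen_lt ?_ continuous_const)
    fun_prop
  have hsub : ({x : EuclideanSpace ℝ (Fin n) | ∑ i, |x i| < 1} ∩ ⋂ i, {x | |x i| < 1 - t}) ⊆ Tr n t := by
    rintro x ⟨h1, h2⟩
    exact ⟨le_of_lt h1, fun i => le_of_lt (mem_iInter.1 h2 i)⟩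
  have hnot : ¬ (∑ i, |x i| < 1 ∧ ∀ i, |x i| < 1 - t) := by
    rintro ⟨h1, h2⟩
    exact hxi (interior_maximal hsub hopen ⟨h1, mem_iInter.2 h2⟩)
  refine mem_iUnion.2 ⟨sgnOf x, ?_⟩
  have hxe : x = sig (sgnOf x) (sig (sgnOf x) x) := (sig_sig _ _).symm
  by_cases hcase : ∃ i, |x i| = 1 - t
  · obtain ⟨i, hi⟩ := hcase
    refine Or.inr (mem_iUnion.2 ⟨i, ⟨sig (sgnOf x) x, ?_, hxe.symm⟩⟩)
    refine mem_Mm_image t ht i _ ?_ ?_ ?_
    · intro j; rw [sig_sgnOf]; exact abs_nonneg _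
    · simp_rw [sig_sgnOf]; exact hxT.1
    · rw [sig_sgnOf]; exact hi
  · push Not at hcase
    have hlt : ∀ i, |x i| < 1 - t := fun i => lt_of_le_of_ne (hxT.2 i) (hcase i)
    have hs1 : ∑ i, |x i| = 1 := by
      refine le_antisymm hxT.1 ?_
      by_contra hlt'
      push Not at hlt'
      exact hnot ⟨hlt', hlt⟩
    refine Or.inl ⟨sig (sgnOf x) x, ⟨⟨?_, ?_⟩, ?_⟩, hxe.symm⟩
    · intro j; rw [sig_sgnOf]; exact abs_nonneg _
    · simp_rw [sig_sgnOf]; exact hs1
    · rw [mem_iUnion]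
      rintro ⟨i, hi⟩
      have := hi.2
      rw [sig_sgnOf] at this
      linarith [hlt i]

theorem exists_dual {n : ℕ} (A : EuclideanSpace ℝ (Fin n) ≃L[ℝ] EuclideanSpace ℝ (Fin n)) :
    ∃ g : Fin n → EuclideanSpace ℝ (Fin n), ∀ i x, ⟪g i, A x⟫ = x i := by
  refine ⟨fun i => ContinuousLinearMap.adjoint
    (A.symm : EuclideanSpace ℝ (Fin n) →L[ℝ] EuclideanSpace ℝ (Fin n))
      (EuclideanSpace.single i 1), fun i x => ?_⟩
  rw [ContinuousLinearMap.adjoint_inner_left]
  simp [EuclideanSpace.inner_single_left]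

section main
variable {n : ℕ} (A : EuclideanSpace ℝ (Fin n) ≃L[ℝ] EuclideanSpace ℝ (Fin n))

/-- absolute value of the determinant -/
noncomputable def adet : ℝ≥0∞ := ENNReal.ofReal |LinearMap.det
  (A.toLinearEquiv : EuclideanSpace ℝ (Fin n) →ₗ[ℝ] EuclideanSpace ℝ (Fin n))|

theorem measurableSet_sig {ε : Fin n → ℤˣ} {D : Set (EuclideanSpace ℝ (Fin n))}
    (hD : MeasurableSet D) : MeasurableSet (sig ε '' D) :=
  ((sig ε).toHomeomorph.toMeasurableEquiv.measurableSet_image).2 hD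

theorem cone_sig (ε : Fin n → ℤˣ) (D : Set (EuclideanSpace ℝ (Fin n))) :
    volume (cone (sig ε '' D)) = volume (cone D) := by
  have : cone (sig ε '' D) = sig ε '' cone D :=
    cone_image ((sig ε).toLinearEquiv : EuclideanSpace ℝ (Fin n) →ₗ[ℝ] EuclideanSpace ℝ (Fin n)) D
  rw [this, volume_sig]

/-- pieces of the original facets -/
theorem area_piece (hn : n ≠ 0) (g : Fin n → EuclideanSpace ℝ (Fin n))
    (hg : ∀ i x, ⟪g i, A x⟫ = x i) (ε : Fin n → ℤˣ) (D : Set (EuclideanSpace ℝ (Fin n)))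
    (hDm : MeasurableSet D) (hD : ∀ x ∈ D, ∑ i, x i = 1) :
    μHE[n - 1] (A '' (sig ε '' D)) = (n : ℝ≥0∞) * adet A *
      (ENNReal.ofReal ‖∑ i, sg ε i • g i‖ * volume (cone D)) := by
  rw [area_image hn A (∑ i, sg ε i • g i) (sig ε '' D) (measurableSet_sig hDm), cone_sig, adet]
  · ring
  · rintro _ ⟨x, hx, rfl⟩
    rw [sum_inner]
    simp_rw [inner_smul_left, hg, sig_apply, ← mul_assoc]
    simp only [conj_trivial, sg_sq, one_mul]
    exact hD x hx

/-- new facets -/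
theorem area_new (hn : n ≠ 0) (g : Fin n → EuclideanSpace ℝ (Fin n))
    (hg : ∀ i x, ⟪g i, A x⟫ = x i) (ε : Fin n → ℤˣ) (t : ℝ) (ht : 0 < t) (ht1 : t < 1)
    (i : Fin n) :
    μHE[n - 1] (A '' (sig ε '' (Mm t i '' Del n))) = (n : ℝ≥0∞) * adet A *
      (ENNReal.ofReal (t ^ (n - 1) * ‖g i‖) * V n) := by
  have h1t : 0 < 1 - t := by linarith
  have hcpt : IsCompact (Del n) := by
    refine (isCompact_Oc n).of_isClosed_subset (isClosed_Del n) ?_
    intro x hx
    show ∑ i, |x i| ≤ 1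
    simp_rw [fun i => abs_of_nonneg (hx.1 i)]
    exact hx.2.le
  have hm : MeasurableSet (Mm t i '' Del n) :=
    (hcpt.image (LinearMap.continuous_of_finiteDimensional _)).isClosed.measurableSet
  rw [area_image hn A ((sg ε i / (1 - t)) • g i) _ (measurableSet_sig hm), cone_sig,
    volume_cone_Mm hn t ht ht1, norm_smul, adet, Real.norm_eq_abs, abs_div, abs_sg,
    abs_of_pos h1t]
  · have : ENNReal.ofReal (t ^ (n - 1) * ‖g i‖)
        = ENNReal.ofReal (1 / (1 - t) * ‖g i‖) * ENNReal.ofReal ((1 - t) * t ^ (n - 1)) := by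
      rw [← ENNReal.ofReal_mul (by positivity)]
      congr 1
      field_simp
    rw [this]
    ring
  · rintro _ ⟨_, ⟨x, hx, rfl⟩, rfl⟩
    rw [inner_smul_left, hg, sig_apply, Mm_apply_self t ht.ne', hx.2]
    simp only [conj_trivial]
    have := sg_sq ε i
    field_simp
    linarith

theorem area_Oc_ge (hn : n ≠ 0) (g : Fin n → EuclideanSpace ℝ (Fin n))
    (hg : ∀ i x, ⟪g i, A x⟫ = x i) :
    (n : ℝ≥0∞) * adet A * V n * ENNReal.ofReal (∑ ε : Fin n → ℤˣ, ‖∑ i, sg ε i • g i‖) ≤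
      μHE[n - 1] (A '' frontier (Oc n)) := by
  have hsub : (⋃ ε : Fin n → ℤˣ, A '' (sig ε '' Delo n)) ⊆ A '' frontier (Oc n) := by
    refine iUnion_subset fun ε => image_mono ?_
    rintro _ ⟨x, hx, rfl⟩
    refine frontier_Oc n _ ?_
    simp_rw [sig_apply, abs_mul, abs_sg, one_mul]
    simp_rw [fun i => abs_of_pos (hx.1 i)]
    exact hx.2
  have hmeas : ∀ ε : Fin n → ℤˣ, MeasurableSet (A '' (sig ε '' Delo n)) := fun ε =>
    (A.toHomeomorph.toMeasurableEquiv.measurableSet_image).2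
      (measurableSet_sig (measurableSet_Delo n))
  have hdisj : Pairwise (Function.onFun Disjoint fun ε : Fin n → ℤˣ =>
      A '' (sig ε '' Delo n)) := by
    intro ε ε' hne
    show Disjoint (A '' (sig ε '' Delo n)) (A '' (sig ε' '' Delo n))
    rw [Set.disjoint_left]
    rintro _ ⟨_, ⟨x, hx, rfl⟩, rfl⟩ ⟨_, ⟨y, hy, rfl⟩, he⟩
    apply hne
    have he' := A.injective he
    funext i
    have h1 : sg ε' i * y i = sg ε i * x i := by
      rw [← sig_apply, ← sig_apply, he']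
    have hx0 := hx.1 i
    have hy0 := hy.1 i
    unfold sg at h1
    rcases Int.units_eq_one_or (ε i) with h | h <;> rcases Int.units_eq_one_or (ε' i) with h' | h'
    · rw [h, h']
    · rw [h, h'] at h1
      simp at h1
      linarith
    · rw [h, h'] at h1
      simp at h1
      linarith
    · rw [h, h']
  calc (n : ℝ≥0∞) * adet A * V n * ENNReal.ofReal (∑ ε : Fin n → ℤˣ, ‖∑ i, sg ε i • g i‖)
      = ∑ ε : Fin n → ℤˣ, μHE[n - 1] (A '' (sig ε '' Delo n)) := by
        rw [ENNReal.ofReal_sum_of_nonneg fun _ _ => norm_nonneg _, Finset.mul_sum]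
        refine Finset.sum_congr rfl fun ε _ => ?_
        rw [area_piece A hn g hg ε (Delo n) (measurableSet_Delo n) fun x hx => hx.2,
          volume_cone_Delo]
        ring
    _ = μHE[n - 1] (⋃ ε : Fin n → ℤˣ, A '' (sig ε '' Delo n)) := by
        rw [measure_iUnion hdisj hmeas, tsum_fintype]
    _ ≤ _ := measure_mono hsub

theorem V_ne_top (n : ℕ) : V n ≠ ⊤ := by
  refine ne_top_of_le_ne_top (isCompact_Oc n).measure_lt_top.ne (measure_mono ?_)
  rintro _ ⟨s, h1, h2, x, hx, rfl⟩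
  show ∑ i, |(s • x) i| ≤ 1
  simp only [PiLp.smul_apply, smul_eq_mul, abs_mul]
  rw [← Finset.mul_sum, abs_of_pos h1]
  simp_rw [fun i => abs_of_nonneg (hx.1 i)]
  rw [hx.2, mul_one]
  exact h2

theorem area_Tr_le (hn : n ≠ 0) (g : Fin n → EuclideanSpace ℝ (Fin n))
    (hg : ∀ i x, ⟪g i, A x⟫ = x i) (t : ℝ) (ht : 0 < t) (ht1 : t < 1 / 2)
    (hnt : (n : ℝ) * t ^ (n - 1) ≤ 1) :
    μHE[n - 1] (A '' frontier (Tr n t)) ≤
      (n : ℝ≥0∞) * adet A * V n * ENNReal.ofReal
        ((1 - n * t ^ (n - 1)) * ∑ ε : Fin n → ℤˣ, ‖∑ i, sg ε i • g i‖ +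
          2 ^ n * t ^ (n - 1) * ∑ i, ‖g i‖) := by
  have hRest : volume (cone (Rest n t)) ≤ ENNReal.ofReal (1 - n * t ^ (n - 1)) * V n := by
    have h := volume_cone_Rest hn t ht ht1
    have hV := V_ne_top n
    have e1 : (n : ℝ≥0∞) * (ENNReal.ofReal (t ^ (n - 1)) * V n)
        = ENNReal.ofReal (n * t ^ (n - 1)) * V n := by
      rw [ENNReal.ofReal_mul (by positivity), ENNReal.ofReal_natCast, mul_assoc]
    have e2 : V n = ENNReal.ofReal (1 - n * t ^ (n - 1)) * V n
        + ENNReal.ofReal (n * t ^ (n - 1)) * V n := by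
      rw [← add_mul, ← ENNReal.ofReal_add (by linarith) (by positivity)]
      simp
    rw [e1] at h
    have hfin : ENNReal.ofReal (n * t ^ (n - 1)) * V n ≠ ⊤ :=
      ENNReal.mul_ne_top ENNReal.ofReal_ne_top hV
    have h' : volume (cone (Rest n t)) + ENNReal.ofReal (n * t ^ (n - 1)) * V n ≤
        ENNReal.ofReal (1 - n * t ^ (n - 1)) * V n
        + ENNReal.ofReal (n * t ^ (n - 1)) * V n := by
      rw [← e2]; exact h
    exact (ENNReal.add_le_add_iff_right hfin).1 h'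
  have hsub : A '' frontier (Tr n t) ⊆ ⋃ ε : Fin n → ℤˣ, (A '' (sig ε '' Rest n t) ∪
      ⋃ i : Fin n, A '' (sig ε '' (Mm t i '' Del n))) := by
    refine (image_mono (frontier_Tr_subset n t ht)).trans ?_
    rw [image_iUnion]
    refine iUnion_mono fun ε => ?_
    rw [image_union, image_iUnion]
  calc μHE[n - 1] (A '' frontier (Tr n t))
      ≤ μHE[n - 1] (⋃ ε : Fin n → ℤˣ, (A '' (sig ε '' Rest n t) ∪
      ⋃ i : Fin n, A '' (sig ε '' (Mm t i '' Del n)))) := measure_mono hsub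
    _ ≤ ∑ ε : Fin n → ℤˣ, μHE[n - 1] (A '' (sig ε '' Rest n t) ∪
      ⋃ i : Fin n, A '' (sig ε '' (Mm t i '' Del n))) := by
        exact measure_iUnion_fintype_le _ _
    _ ≤ ∑ ε : Fin n → ℤˣ, (μHE[n - 1] (A '' (sig ε '' Rest n t)) +
      ∑ i : Fin n, μHE[n - 1] (A '' (sig ε '' (Mm t i '' Del n)))) := by
        refine Finset.sum_le_sum fun ε _ => (measure_union_le _ _).trans ?_
        gcongr
        exact measure_iUnion_fintype_le _ _
    _ ≤ ∑ ε : Fin n → ℤˣ, ((n : ℝ≥0∞) * adet A * V n * (ENNReal.ofReal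
          ((1 - n * t ^ (n - 1)) * ‖∑ i, sg ε i • g i‖ + t ^ (n - 1) * ∑ i, ‖g i‖))) := by
        refine Finset.sum_le_sum fun ε _ => ?_
        rw [area_piece A hn g hg ε (Rest n t) (measurableSet_Rest n t) fun x hx => hx.1.2]
        simp_rw [area_new A hn g hg ε t ht (by linarith : t < 1)]
        rw [← Finset.mul_sum, ← Finset.sum_mul,
          ← ENNReal.ofReal_sum_of_nonneg fun _ _ => by positivity, ← Finset.mul_sum,
          ENNReal.ofReal_add (mul_nonneg (by linarith) (norm_nonneg _)) (by positivity),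
          mul_add]
        refine add_le_add ?_ (le_of_eq (by ring))
        calc (n : ℝ≥0∞) * adet A * (ENNReal.ofReal ‖∑ i, sg ε i • g i‖ * volume (cone (Rest n t)))
            ≤ (n : ℝ≥0∞) * adet A * (ENNReal.ofReal ‖∑ i, sg ε i • g i‖ *
              (ENNReal.ofReal (1 - n * t ^ (n - 1)) * V n)) := by gcongr
          _ = _ := by
            rw [ENNReal.ofReal_mul (by linarith)]
            ring
    _ = _ := by
        rw [← Finset.mul_sum, ← ENNReal.ofReal_sum_of_nonneg]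
        · congr 2
          rw [Finset.sum_add_distrib, ← Finset.mul_sum, Finset.sum_const, Finset.card_univ,
            Fintype.card_pi_const, Fintype.card_units_int, nsmul_eq_mul]
          push_cast
          ring
        · intro ε _
          have : 0 ≤ 1 - n * t ^ (n - 1) := by linarith
          positivity

end main

/-- Main surface area inequality -/
theorem area_main {m : ℕ} (A : EuclideanSpace ℝ (Fin (m + 3)) ≃L[ℝ] EuclideanSpace ℝ (Fin (m + 3)))
    (t : ℝ) (ht : 0 < t) (ht1 : t < 1 / 2) (hnt : ((m + 3 : ℕ) : ℝ) * t ^ (m + 2) ≤ 1) :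
    μHE[m + 2] (A '' frontier (Tr (m + 3) t)) ≤
      ENNReal.ofReal (1 - ((m + 3 : ℕ) : ℝ) / 3 * t ^ (m + 2)) *
        μHE[m + 2] (A '' frontier (Oc (m + 3))) := by
  obtain ⟨g, hg⟩ := exists_dual A
  have h1 := area_Tr_le A (by omega) g hg t ht ht1 hnt
  have h2 := area_Oc_ge A (by omega) g hg
  have h3 := average g
  have e : m + 3 - 1 = m + 2 := rfl
  rw [e] at h1 h2
  refine h1.trans ?_
  refine le_trans ?_ (mul_le_mul_right h2 _)
  have hpos : 0 ≤ 1 - ((m + 3 : ℕ) : ℝ) / 3 * t ^ (m + 2) := by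
    have : 0 ≤ ((m + 3 : ℕ) : ℝ) * t ^ (m + 2) := by positivity
    linarith
  calc _ ≤ ((m + 3 : ℕ) : ℝ≥0∞) * adet A * V (m + 3) * ENNReal.ofReal
        ((1 - ((m + 3 : ℕ) : ℝ) / 3 * t ^ (m + 2)) *
          ∑ ε : Fin (m + 3) → ℤˣ, ‖∑ i, sg ε i • g i‖) := by
        gcongr
        have ht2 : 0 < t ^ (m + 2) := by positivity
        nlinarith [mul_le_mul_of_nonneg_left h3 ht2.le]
    _ = _ := by
        rw [ENNReal.ofReal_mul hpos]
        ring

/-- Volume inequality -/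
theorem volume_main {n : ℕ} (t : ℝ) (ht : 0 < t) (ht1 : t < 1) :
    volume (Oc n) ≤ volume (Tr n t) + ENNReal.ofReal (n * t ^ n) * volume (Oc n) := by
  have hsub : Oc n ⊆ Tr n t ∪ ⋃ i : Fin n,
      (({x | x ∈ Oc n ∧ 1 - t < x i}) ∪ {x | x ∈ Oc n ∧ x i < -(1 - t)}) := by
    intro x hx
    by_cases h : ∀ i, |x i| ≤ 1 - t
    · exact Or.inl ⟨hx, h⟩
    · push Not at h
      obtain ⟨i, hi⟩ := h
      refine Or.inr (mem_iUnion.2 ⟨i, ?_⟩)
      rcases lt_abs.1 hi with h | h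
      · exact Or.inl ⟨hx, h⟩
      · exact Or.inr ⟨hx, by linarith⟩
  have himg : ∀ (v : EuclideanSpace ℝ (Fin n)) (X : Set (EuclideanSpace ℝ (Fin n))),
      volume ((fun y => v + t • y) '' X) = ENNReal.ofReal (t ^ n) * volume X := by
    intro v X
    have : (fun y => v + t • y) '' X = (fun y => v + y) '' (t • X) := by
      ext z
      simp only [mem_image, mem_smul_set]
      constructor
      · rintro ⟨y, hy, rfl⟩; exact ⟨t • y, ⟨y, hy, rfl⟩, rfl⟩
      · rintro ⟨_, ⟨y, hy, rfl⟩, rfl⟩; exact ⟨y, hy, rfl⟩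
    rw [this, image_add_left, measure_preimage_add, Measure.addHaar_smul]
    simp only [finrank_euclideanSpace, Fintype.card_fin]
    rw [abs_of_pos (by positivity)]
  have hc1 : ∀ i : Fin n, ({x | x ∈ Oc n ∧ 1 - t < x i}) ⊆
      (fun y => EuclideanSpace.single i (1 - t) + t • y) '' {x | x ∈ Oc n ∧ 0 < x i} := by
    rintro i x ⟨hx, hxi⟩
    refine ⟨t⁻¹ • (x - EuclideanSpace.single i (1 - t)), ⟨?_, ?_⟩, ?_⟩
    · show ∑ j, |(t⁻¹ • (x - EuclideanSpace.single i (1 - t))) j| ≤ 1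
      simp only [PiLp.smul_apply, PiLp.sub_apply, smul_eq_mul, abs_mul, ← Finset.mul_sum]
      have e : ∀ j, |x j - (EuclideanSpace.single i (1 - t) : EuclideanSpace ℝ (Fin n)) j|
          = |x j| - if j = i then (1 - t) else 0 := by
        intro j
        rw [PiLp.single_apply]
        by_cases h : j = i
        · subst h
          rw [if_pos rfl, abs_of_nonneg (by linarith), abs_of_pos (by linarith)]
        · rw [if_neg h, sub_zero, sub_zero]
      simp_rw [e]
      rw [Finset.sum_sub_distrib, Finset.sum_ite_eq', if_pos (Finset.mem_univ _),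
        abs_of_pos (inv_pos.2 ht)]
      have hx' : ∑ i, |x i| ≤ 1 := hx
      rw [inv_mul_le_iff₀ ht]
      linarith
    · simp only [PiLp.smul_apply, PiLp.sub_apply, smul_eq_mul, PiLp.single_apply, if_true]
      exact mul_pos (inv_pos.2 ht) (by linarith)
    · simp only [smul_smul, mul_inv_cancel₀ ht.ne', one_smul]
      abel
  have hc2 : ∀ i : Fin n, ({x | x ∈ Oc n ∧ x i < -(1 - t)}) ⊆
      (fun y => EuclideanSpace.single i (-(1 - t)) + t • y) '' {x | x ∈ Oc n ∧ x i < 0} := by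
    rintro i x ⟨hx, hxi⟩
    refine ⟨t⁻¹ • (x - EuclideanSpace.single i (-(1 - t))), ⟨?_, ?_⟩, ?_⟩
    · show ∑ j, |(t⁻¹ • (x - EuclideanSpace.single i (-(1 - t)))) j| ≤ 1
      simp only [PiLp.smul_apply, PiLp.sub_apply, smul_eq_mul, abs_mul, ← Finset.mul_sum]
      have e : ∀ j, |x j - (EuclideanSpace.single i (-(1 - t)) : EuclideanSpace ℝ (Fin n)) j|
          = |x j| - if j = i then (1 - t) else 0 := by
        intro j
        rw [PiLp.single_apply]
        by_cases h : j = i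
        · subst h
          rw [if_pos rfl, if_pos rfl, abs_of_nonpos (by linarith), abs_of_neg (by linarith)]
          ring
        · rw [if_neg h, if_neg h, sub_zero, sub_zero]
      simp_rw [e]
      rw [Finset.sum_sub_distrib, Finset.sum_ite_eq', if_pos (Finset.mem_univ _),
        abs_of_pos (inv_pos.2 ht)]
      have hx' : ∑ i, |x i| ≤ 1 := hx
      rw [inv_mul_le_iff₀ ht]
      linarith
    · simp only [PiLp.smul_apply, PiLp.sub_apply, smul_eq_mul, PiLp.single_apply, if_true]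
      exact mul_neg_of_pos_of_neg (inv_pos.2 ht) (by linarith)
    · simp only [smul_smul, mul_inv_cancel₀ ht.ne', one_smul]
      abel
  have hhalf : ∀ i : Fin n, volume {x : EuclideanSpace ℝ (Fin n) | x ∈ Oc n ∧ 0 < x i}
      + volume {x : EuclideanSpace ℝ (Fin n) | x ∈ Oc n ∧ x i < 0} ≤ volume (Oc n) := by
    intro i
    have hm : MeasurableSet {x : EuclideanSpace ℝ (Fin n) | x ∈ Oc n ∧ x i < 0} := by
      refine (isClosed_Oc n).measurableSet.inter ?_
      exact measurableSet_lt (show Measurable fun x : EuclideanSpace ℝ (Fin n) => x i by fun_prop)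
        measurable_const
    rw [← measure_union _ hm]
    · exact measure_mono (union_subset (fun x hx => hx.1) (fun x hx => hx.1))
    · rw [Set.disjoint_left]
      rintro x ⟨_, h1⟩ ⟨_, h2⟩
      linarith
  calc volume (Oc n) ≤ volume (Tr n t) + volume (⋃ i : Fin n,
      (({x : EuclideanSpace ℝ (Fin n) | x ∈ Oc n ∧ 1 - t < x i}) ∪ {x | x ∈ Oc n ∧ x i < -(1 - t)})) :=
        (measure_mono hsub).trans (measure_union_le _ _)
    _ ≤ volume (Tr n t) + ∑ i : Fin n, volume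
      (({x : EuclideanSpace ℝ (Fin n) | x ∈ Oc n ∧ 1 - t < x i}) ∪ {x | x ∈ Oc n ∧ x i < -(1 - t)}) := by
        gcongr
        exact measure_iUnion_fintype_le _ _
    _ ≤ volume (Tr n t) + ∑ i : Fin n, ENNReal.ofReal (t ^ n) * volume (Oc n) := by
        gcongr with i
        refine (measure_union_le _ _).trans ?_
        refine (add_le_add (measure_mono (hc1 i)) (measure_mono (hc2 i))).trans ?_
        rw [himg, himg, ← mul_add]
        gcongr
        exact hhalf i
    _ = _ := by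
        rw [Finset.sum_const, Finset.card_univ, Fintype.card_fin, nsmul_eq_mul, ← mul_assoc,
          ENNReal.ofReal_mul (by positivity), ENNReal.ofReal_natCast]

end Pool.Agent.H867R2.Oct
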